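import Pool.Agent.H53.NU.Defs
import Pool.Agent.H75.EK.Mert

/-!
Row Fdv: the weight `FF` as a divisor sum.

PROOFS.
* `oddp_sq`: `oddp y` is squarefree and odd.
* `FF_le`: split the odd primes `p ∣ h` into `p ≤ y` and `p > y`.  There are at most `y` of the latter (`2^#{p ∣ h} ≤ h < 2^y`), so
  `∏_{p ∣ h, p > y} (1 + 4/p) ≤ (1 + 4/y)^y ≤ e⁴`.  The product over the set `Q` of the odd primes `p ∣ h`, `p ≤ y` is
  `∑_{A ⊆ Q} ∏_{p ∈ A} 4/p = ∑_{d ∣ oddp y, d ∣ h} g4 d` (`Finset.prod_one_add`; `A ↦ ∏_{p ∈ A} p`).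
* `g4_sum`: `∑_{d ∣ oddp y} g4 d = ∏_{3 ≤ p ≤ y} (1 + 4/p) ≤ exp(4 ∑_{p ≤ y} 1/p) ≤ C (log y)⁴` by `mert5` of
  `Pool.Agent.H75.EK.Mert` (namespace `EK75`).
-/

set_option autoImplicit false

namespace Pool.H53.NA

lemma fdv_sqf (S : Finset ℕ) (hS : ∀ p ∈ S, p.Prime) : Squarefree (∏ p ∈ S, p) := by
  have hn : ∏ p ∈ S, p ≠ 0 := Finset.prod_ne_zero_iff.2 fun p hp ↦ (hS _ hp).ne_zero
  have h := Nat.primeFactors_prod hS
  induction S using Finset.induction_on with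
  | empty => simp
  | insert p S hp ih =>
    have hS' : ∀ q ∈ S, q.Prime := fun q hq => hS q (Finset.mem_insert_of_mem hq)
    have hp' : p.Prime := hS p (Finset.mem_insert_self _ _)
    have hn' : ∏ q ∈ S, q ≠ 0 := Finset.prod_ne_zero_iff.2 fun q hq ↦ (hS' _ hq).ne_zero
    rw [Finset.prod_insert hp]
    have hcop : Nat.Coprime p (∏ q ∈ S, q) := by
      refine Nat.Coprime.prod_right fun q hq => ?_
      refine (Nat.coprime_primes hp' (hS' q hq)).mpr ?_
      rintro rfl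
      exact hp hq
    exact (Nat.squarefree_mul hcop).mpr ⟨hp'.squarefree, ih hS' hn' (Nat.primeFactors_prod hS')⟩

lemma fdv_mem (y p : ℕ) (hp : p ∈ (Finset.Icc 3 y).filter Nat.Prime) : p.Prime :=
  (Finset.mem_filter.mp hp).2

lemma fdv_g4_nonneg (d : ℕ) : 0 ≤ g4 d := by
  unfold g4
  positivity

lemma fdv_sum (S : Finset ℕ) (hS : ∀ p ∈ S, p.Prime) :
    ∑ d ∈ (∏ p ∈ S, p).divisors, g4 d = ∏ p ∈ S, (1 + 4 / (p : ℝ)) := by
  have hn : ∏ p ∈ S, p ≠ 0 := Finset.prod_ne_zero_iff.2 fun p hp ↦ (hS _ hp).ne_zero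
  have hsq := fdv_sqf S hS
  rw [Finset.prod_one_add]
  symm
  refine Finset.sum_bij' (fun A _ => ∏ p ∈ A, p) (fun d _ => d.primeFactors) ?_ ?_ ?_ ?_ ?_
  · intro A hA
    rw [Nat.mem_divisors]
    exact ⟨Finset.prod_dvd_prod_of_subset _ _ _ (Finset.mem_powerset.mp hA), hn⟩
  · intro d hd
    rw [Finset.mem_powerset]
    have h1 := Nat.primeFactors_mono (Nat.dvd_of_mem_divisors hd) hn
    rwa [Nat.primeFactors_prod hS] at h1
  · intro A hA
    exact Nat.primeFactors_prod fun p hp => hS p (Finset.mem_powerset.mp hA hp)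
  · intro d hd
    exact Nat.prod_primeFactors_of_squarefree (hsq.squarefree_of_dvd (Nat.dvd_of_mem_divisors hd))
  · intro A hA
    unfold g4
    rw [Nat.primeFactors_prod fun p hp => hS p (Finset.mem_powerset.mp hA hp),
      Finset.prod_div_distrib, Finset.prod_const]
    push_cast
    rfl

lemma fdv_exp (S : Finset ℕ) : ∏ p ∈ S, (1 + 4 / (p : ℝ)) ≤ Real.exp (∑ p ∈ S, 4 / (p : ℝ)) := by
  rw [Real.exp_sum]
  refine Finset.prod_le_prod (fun p _ => by positivity) fun p _ => ?_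
  have := Real.add_one_le_exp (4 / (p : ℝ))
  linarith

theorem oddp_sq (y d : ℕ) (hd : d ∈ (oddp y).divisors) : Squarefree d ∧ Odd d := by
  have hdv := Nat.dvd_of_mem_divisors hd
  refine ⟨(fdv_sqf _ (fdv_mem y)).squarefree_of_dvd hdv, ?_⟩
  rw [← Nat.not_even_iff_odd]
  intro he
  have h2 : 2 ∣ oddp y := (even_iff_two_dvd.mp he).trans hdv
  unfold oddp at h2
  rw [Nat.prime_two.prime.dvd_finsetProd_iff] at h2
  obtain ⟨p, hp, h2p⟩ := h2
  have hp' := Finset.mem_filter.mp hp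
  have h3 := (Nat.prime_dvd_prime_iff_eq Nat.prime_two hp'.2).mp h2p
  have h4 := (Finset.mem_Icc.mp hp'.1).1
  omega

theorem FF_le (y h : ℕ) (hy : 1 ≤ y) (hh : 0 < h) (hlt : h < 2 ^ y) :
    FF h ≤ Real.exp 4 * ∑ d ∈ (oddp y).divisors.filter (fun d => d ∣ h), g4 d := by
  set T : Finset ℕ := h.primeFactors.filter (fun p => p ≠ 2) with hT
  set Q : Finset ℕ := T.filter (fun p => p ≤ y) with hQ
  set B : Finset ℕ := T.filter (fun p => ¬ p ≤ y) with hB
  have hTp : ∀ p ∈ T, p.Prime ∧ p ∣ h ∧ p ≠ 2 := by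
    intro p hp
    rw [hT, Finset.mem_filter, Nat.mem_primeFactors] at hp
    exact ⟨hp.1.1, hp.1.2.1, hp.2⟩
  have hQp : ∀ p ∈ Q, p.Prime := fun p hp => (hTp p (Finset.mem_filter.mp hp).1).1
  have hBp : ∀ p ∈ B, p.Prime := fun p hp => (hTp p (Finset.mem_filter.mp hp).1).1
  have hsplit : FF h = (∏ p ∈ B, (1 + 4 / (p : ℝ))) * ∏ p ∈ Q, (1 + 4 / (p : ℝ)) := by
    unfold FF
    rw [← hT, mul_comm, hQ, hB, Finset.prod_filter_mul_prod_filter_not]
  -- the big primes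
  have hBd : (∏ p ∈ B, p) ∣ h := by
    refine (Finset.prod_dvd_prod_of_subset B h.primeFactors _ ?_).trans (Nat.prod_primeFactors_dvd h)
    exact (Finset.filter_subset _ _).trans (Finset.filter_subset _ _)
  have hBc : B.card ≤ y := by
    have h1 : 2 ^ B.card ≤ ∏ p ∈ B, p := by
      rw [← Finset.prod_const]
      exact Finset.prod_le_prod' fun p hp => (hBp p hp).two_le
    have h2 : 2 ^ B.card < 2 ^ y := (h1.trans (Nat.le_of_dvd hh hBd)).trans_lt hlt
    exact ((Nat.pow_lt_pow_iff_right (by norm_num)).mp h2).le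
  have hy0 : (0 : ℝ) < y := by exact_mod_cast hy
  have hBle : ∏ p ∈ B, (1 + 4 / (p : ℝ)) ≤ Real.exp 4 := by
    refine (fdv_exp B).trans (Real.exp_le_exp.mpr ?_)
    have h1 : ∑ p ∈ B, 4 / (p : ℝ) ≤ ∑ p ∈ B, 4 / (y : ℝ) := by
      refine Finset.sum_le_sum fun p hp => ?_
      have h2 : (y : ℝ) ≤ p := by
        have := (Finset.mem_filter.mp hp).2
        have h3 : y ≤ p := by omega
        exact_mod_cast h3
      exact div_le_div_of_nonneg_left (by norm_num) hy0 h2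
    rw [Finset.sum_const, nsmul_eq_mul] at h1
    have h4 : (B.card : ℝ) * (4 / y) ≤ y * (4 / y) := by
      refine mul_le_mul_of_nonneg_right ?_ (by positivity)
      exact_mod_cast hBc
    have h5 : (y : ℝ) * (4 / y) = 4 := by field_simp
    linarith
  -- the small primes
  have hQ1 : (∏ p ∈ Q, p) ∣ h := by
    refine (Finset.prod_dvd_prod_of_subset Q h.primeFactors _ ?_).trans (Nat.prod_primeFactors_dvd h)
    exact (Finset.filter_subset _ _).trans (Finset.filter_subset _ _)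
  have hQ2 : (∏ p ∈ Q, p) ∣ oddp y := by
    unfold oddp
    refine Finset.prod_dvd_prod_of_subset _ _ _ ?_
    intro p hp
    have h1 := Finset.mem_filter.mp hp
    have h2 := hTp p h1.1
    rw [Finset.mem_filter, Finset.mem_Icc]
    have h3 := h2.1.two_le
    have h4 := h2.2.2
    have h5 := h1.2
    exact ⟨⟨by omega, by omega⟩, h2.1⟩
  have hodd0 : oddp y ≠ 0 := (fdv_sqf _ (fdv_mem y)).ne_zero
  have hQle : ∏ p ∈ Q, (1 + 4 / (p : ℝ)) ≤
      ∑ d ∈ (oddp y).divisors.filter (fun d => d ∣ h), g4 d := by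
    rw [← fdv_sum Q hQp]
    refine Finset.sum_le_sum_of_subset_of_nonneg ?_ fun d _ _ => fdv_g4_nonneg d
    intro d hd
    have h1 := Nat.dvd_of_mem_divisors hd
    rw [Finset.mem_filter, Nat.mem_divisors]
    exact ⟨⟨h1.trans hQ2, hodd0⟩, h1.trans hQ1⟩
  rw [hsplit]
  exact mul_le_mul hBle hQle (Finset.prod_nonneg fun p _ => by positivity) (Real.exp_pos 4).le

theorem g4_sum : ∃ C : ℝ, 0 < C ∧ ∀ y : ℕ, 2 ≤ y →
    ∑ d ∈ (oddp y).divisors, g4 d ≤ C * (Real.log y) ^ 4 := by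
  obtain ⟨C, hC⟩ := EK75.mert5
  refine ⟨Real.exp (4 * C), Real.exp_pos _, fun y hy => ?_⟩
  have hy2 : (2 : ℝ) ≤ y := by exact_mod_cast hy
  have hlog : 0 < Real.log y := Real.log_pos (by linarith)
  have h1 := hC y hy2
  have h2 : ∑ p ∈ (Finset.Icc 3 y).filter Nat.Prime, 4 / (p : ℝ) ≤
      4 * ∑ p ∈ EK75.prLe y, (1 : ℝ) / p := by
    rw [Finset.mul_sum]
    have h3 : ∀ p : ℕ, 4 * ((1 : ℝ) / p) = 4 / p := fun p => by ring
    simp only [h3]
    refine Finset.sum_le_sum_of_subset_of_nonneg ?_ fun p _ _ => by positivity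
    intro p hp
    rw [Finset.mem_filter, Finset.mem_Icc] at hp
    unfold EK75.prLe
    rw [Finset.mem_filter, Finset.mem_range, Nat.floor_natCast]
    exact ⟨by omega, hp.2⟩
  unfold oddp
  rw [fdv_sum _ (fdv_mem y)]
  refine (fdv_exp _).trans ?_
  have h4 := (abs_le.mp h1).2
  have h5 : ∑ p ∈ (Finset.Icc 3 y).filter Nat.Prime, 4 / (p : ℝ) ≤
      4 * C + 4 * Real.log (Real.log y) := by linarith
  refine (Real.exp_le_exp.mpr h5).trans ?_
  rw [Real.exp_add]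
  refine mul_le_mul_of_nonneg_left ?_ (Real.exp_pos _).le
  have h6 : Real.exp (4 * Real.log (Real.log y)) = Real.log y ^ 4 := by
    rw [show (4 : ℝ) * Real.log (Real.log y) = Real.log (Real.log y) * ((4 : ℕ) : ℝ) by push_cast; ring,
      Real.exp_mul, Real.exp_log hlog, Real.rpow_natCast]
  exact h6.le

end Pool.H53.NA
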