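import Pool.Agent.H53.NU.Defs

/-!
Row Wdb: sums of an admissible weight over residue classes.

PROOFS.
* `w_le`: `WT.cls` with `i = D`: the only `k < D` with `k ≡ x mod D` is `x % D`, and `w x = w (x % D)` by periodicity.
* `ow_sqrt`: `ow g = (8/7)^ω(g) ≤ √g` (`(8/7)² ≤ 2` and `2^ω(g) ≤ g`).
* `class_period`: `g = gcd D t`, `m = lcm D t`.  By the Chinese remainder theorem `j ↦ j % D` is a bijection from
  `{j < m : j ≡ x mod t}` to `{k < D : k ≡ x mod g}` (surjective: `k ≡ x mod g` makes `j ≡ k mod D`, `j ≡ x mod t` solvable,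
  `Nat.chineseRemainder'` ; injective: two solutions agree modulo `m`), and `w j = w (j % D)`.  So
  `∑_{j < m, j ≡ x (t)} w j = ∑_{k < D, k ≡ x (g)} w k ≤ ow g D/g`.
* `wd_bound`: if `m ≤ J`, cover `[1,J]` by at most `J/m + 1 ≤ 2J/m` blocks of length `m` (any `m` consecutive integers give the same
  sum, by periodicity), so the sum is `≤ (2J/m) ow g D/g = 2 J ow g/t ≤ 2 J/√t` (`m g = D t`, `ow g ≤ √g ≤ √t`).
  If `m > J` then `t D ≥ m > J` and the sum is at most `ow D` times the number of `j ≤ J`, `j ≡ x mod t`, which is `≤ J/t + 1`.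
* `mass_lower`: `[1,J]` contains `⌊J/D⌋ ≥ J/(2D)` disjoint blocks of length `D`, each of sum `∑_{k<D} w k ≥ c D`.
* `mass_upper`: `wd_bound` with `t = 1`.
-/

set_option autoImplicit false

namespace Pool.H53.NA

theorem wdb_per {D : ℕ} {w : ℕ → ℝ} (hw : WT D w) : Function.Periodic w D := hw.per

theorem w_le (D : ℕ) (hD : 0 < D) (w : ℕ → ℝ) (hw : WT D w) (k : ℕ) : w k ≤ ow D := by
  have h1 := hw.cls D dvd_rfl k
  have hD' : (D : ℝ) ≠ 0 := by exact_mod_cast hD.ne'
  rw [mul_div_assoc, div_self hD', mul_one] at h1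
  refine le_trans ?_ h1
  have h2 : w (k % D) ≤ ∑ k' ∈ (Finset.range D).filter (fun k' => k' ≡ k [MOD D]), w k' :=
    Finset.single_le_sum (f := w) (fun i _ => hw.nn i)
      (Finset.mem_filter.2 ⟨Finset.mem_range.2 (Nat.mod_lt _ hD), Nat.mod_modEq _ _⟩)
  rwa [(wdb_per hw).map_mod_nat] at h2

theorem ow_sqrt (g : ℕ) (hg : 0 < g) : ow g ≤ Real.sqrt g := by
  unfold ow
  apply Real.le_sqrt_of_sq_le
  have h1 : 2 ^ g.primeFactors.card ≤ g := by
    calc 2 ^ g.primeFactors.card = ∏ _p ∈ g.primeFactors, 2 := by rw [Finset.prod_const]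
      _ ≤ ∏ p ∈ g.primeFactors, p :=
        Finset.prod_le_prod' fun p hp => (Nat.prime_of_mem_primeFactors hp).two_le
      _ ≤ g := Nat.le_of_dvd hg (Nat.prod_primeFactors_dvd g)
  have h2 : ((2 : ℝ)) ^ g.primeFactors.card ≤ g := by exact_mod_cast h1
  refine le_trans ?_ h2
  rw [← pow_mul, mul_comm, pow_mul]
  exact pow_le_pow_left₀ (by norm_num) (by norm_num) _

theorem class_period (D t : ℕ) (hD : 0 < D) (ht : 0 < t) (w : ℕ → ℝ) (hw : WT D w) (x : ℕ) :
    ∑ j ∈ (Finset.range (Nat.lcm D t)).filter (fun j => j ≡ x [MOD t]), w j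
      ≤ ow (Nat.gcd D t) * D / (Nat.gcd D t) := by
  classical
  refine le_trans ?_ (hw.cls (Nat.gcd D t) (Nat.gcd_dvd_left D t) x)
  have h1 : ∑ j ∈ (Finset.range (Nat.lcm D t)).filter (fun j => j ≡ x [MOD t]), w j =
      ∑ k ∈ ((Finset.range (Nat.lcm D t)).filter (fun j => j ≡ x [MOD t])).image (fun j => j % D),
        w k := by
    rw [Finset.sum_image]
    · refine Finset.sum_congr rfl fun j _ => ?_
      rw [(wdb_per hw).map_mod_nat]
    · intro j hj j' hj' hjj
      rw [Finset.mem_coe, Finset.mem_filter, Finset.mem_range] at hj hj'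
      have h2 : j ≡ j' [MOD D] := hjj
      have h3 : j ≡ j' [MOD t] := hj.2.trans hj'.2.symm
      have h4 : ∀ a b : ℕ, a ≤ b → b < Nat.lcm D t → a ≡ b [MOD D] → a ≡ b [MOD t] → a = b := by
        intro a b hab hb ha1 ha2
        have h5 : Nat.lcm D t ∣ b - a :=
          Nat.lcm_dvd ((Nat.modEq_iff_dvd' hab).1 ha1) ((Nat.modEq_iff_dvd' hab).1 ha2)
        rcases Nat.eq_zero_or_pos (b - a) with h6 | h6
        · omega
        · have := Nat.le_of_dvd h6 h5
          omega
      rcases le_total j j' with h | h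
      · exact h4 j j' h hj'.1 h2 h3
      · exact (h4 j' j h hj.1 h2.symm h3.symm).symm
  rw [h1]
  refine Finset.sum_le_sum_of_subset_of_nonneg ?_ fun k _ _ => hw.nn k
  intro k hk
  rw [Finset.mem_image] at hk
  obtain ⟨j, hj, rfl⟩ := hk
  rw [Finset.mem_filter] at hj
  rw [Finset.mem_filter, Finset.mem_range]
  refine ⟨Nat.mod_lt _ hD, ?_⟩
  exact ((Nat.mod_modEq j D).of_dvd (Nat.gcd_dvd_left D t)).trans
    (hj.2.of_dvd (Nat.gcd_dvd_right D t))

theorem wdb_blocks (f : ℕ → ℝ) (m : ℕ) (hf : Function.Periodic f m) (q : ℕ) :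
    ∑ j ∈ Finset.range (m * q), f j = q * ∑ j ∈ Finset.range m, f j := by
  induction q with
  | zero => simp
  | succ q ih =>
    rw [Nat.mul_succ, Finset.sum_range_add, ih]
    have h : ∀ x ∈ Finset.range m, f (m * q + x) = f x := by
      intro x _
      rw [add_comm, mul_comm]
      exact hf.nat_mul q x
    rw [Finset.sum_congr rfl h]
    push_cast
    ring

theorem wdb_card (t J : ℕ) (ht : 0 < t) (x : ℕ) :
    (((Finset.Icc 1 J).filter (fun j => j ≡ x [MOD t])).card : ℝ) ≤ (J : ℝ) / t + 1 := by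
  have h1 : Finset.Icc 1 J = Finset.Ioc 0 J := by
    ext a
    simp [Finset.mem_Icc, Finset.mem_Ioc, Nat.lt_iff_add_one_le]
  have h2 := Nat.Ioc_filter_modEq_card 0 J ht x
  rw [h1]
  have h3 : ((((Finset.Ioc 0 J).filter (fun j => j ≡ x [MOD t])).card : ℤ) : ℝ) ≤
      (J : ℝ) / t + 1 := by
    rw [h2]
    push_cast
    apply max_le
    · have h4 := Int.floor_le (((J : ℚ) - x) / t)
      have h5 := Int.sub_one_lt_floor (((0 : ℚ) - x) / t)
      have h6 : ((⌊((J : ℚ) - x) / t⌋ : ℤ) : ℚ) - ((⌊((0 : ℚ) - x) / t⌋ : ℤ) : ℚ) ≤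
          (J : ℚ) / t + 1 := by
        have : ((J : ℚ) - x) / t - ((0 : ℚ) - x) / t = (J : ℚ) / t := by ring
        linarith
      have h7 : ((((⌊((J : ℚ) - x) / t⌋ : ℤ) : ℚ) - ((⌊((0 : ℚ) - x) / t⌋ : ℤ) : ℚ) : ℚ) : ℝ) ≤
          (((J : ℚ) / t + 1 : ℚ) : ℝ) := by exact_mod_cast h6
      push_cast at h7
      simpa using h7
    · positivity
  exact_mod_cast h3

theorem wd_bound (D t J : ℕ) (hD : 0 < D) (ht : 0 < t) (w : ℕ → ℝ) (hw : WT D w) (x : ℕ) :
    ∑ j ∈ (Finset.Icc 1 J).filter (fun j => j ≡ x [MOD t]), w j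
      ≤ 2 * J / Real.sqrt t + (if t * D ≤ J then 0 else ow D * ((J : ℝ) / t + 1)) := by
  classical
  have how : 0 ≤ ow D := by
    unfold ow
    positivity
  by_cases hc : t * D ≤ J
  · rw [if_pos hc, add_zero]
    obtain ⟨m, hm⟩ : ∃ m, m = Nat.lcm D t := ⟨_, rfl⟩
    obtain ⟨g, hg⟩ : ∃ g, g = Nat.gcd D t := ⟨_, rfl⟩
    have hm0 : 0 < m := by rw [hm]; exact Nat.lcm_pos hD ht
    have hg0 : 0 < g := by rw [hg]; exact Nat.gcd_pos_of_pos_left _ hD
    have hgm : g * m = D * t := by rw [hg, hm]; exact Nat.gcd_mul_lcm D t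
    have hmJ : m ≤ J := by
      refine le_trans ?_ hc
      rw [mul_comm t D, ← hgm]
      exact Nat.le_mul_of_pos_left m hg0
    have hcp := class_period D t hD ht w hw x
    rw [← hm, ← hg] at hcp
    have hper : Function.Periodic (fun j => if j ≡ x [MOD t] then w j else 0) m := by
      intro j
      have h1 : (j + m ≡ x [MOD t]) ↔ (j ≡ x [MOD t]) := by
        have : m ≡ 0 [MOD t] := (Nat.modEq_zero_iff_dvd).2 (by rw [hm]; exact Nat.dvd_lcm_right D t)
        have h2 : j + m ≡ j [MOD t] := by simpa using (Nat.ModEq.refl j).add this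
        exact ⟨fun h => h2.symm.trans h, fun h => h2.trans h⟩
      obtain ⟨c, hc'⟩ : D ∣ m := by rw [hm]; exact Nat.dvd_lcm_left D t
      have h3 : w (j + m) = w j := by
        rw [hc', mul_comm]
        exact (wdb_per hw).nat_mul c j
      simp only [h1, h3]
    have hb := wdb_blocks _ m hper (J / m + 1)
    have hsub : ∑ j ∈ (Finset.Icc 1 J).filter (fun j => j ≡ x [MOD t]), w j ≤
        ∑ j ∈ Finset.range (m * (J / m + 1)), (if j ≡ x [MOD t] then w j else 0) := by
      rw [← Finset.sum_filter]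
      refine Finset.sum_le_sum_of_subset_of_nonneg ?_ fun k _ _ => hw.nn k
      intro j hj
      rw [Finset.mem_filter, Finset.mem_Icc] at hj
      rw [Finset.mem_filter, Finset.mem_range]
      refine ⟨lt_of_le_of_lt hj.1.2 ?_, hj.2⟩
      have := Nat.lt_mul_div_succ J hm0
      exact this
    refine hsub.trans ?_
    rw [hb, ← Finset.sum_filter]
    have hmR : (0 : ℝ) < m := by exact_mod_cast hm0
    have hgR : (0 : ℝ) < g := by exact_mod_cast hg0
    have htR : (0 : ℝ) < t := by exact_mod_cast ht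
    have hq : (((J / m + 1 : ℕ)) : ℝ) ≤ 2 * J / m := by
      have h1 : (((J / m : ℕ)) : ℝ) ≤ (J : ℝ) / m := Nat.cast_div_le
      have h2 : (1 : ℝ) ≤ (J : ℝ) / m := by
        rw [le_div_iff₀ hmR, one_mul]
        exact_mod_cast hmJ
      have h3 : (2 * J / m : ℝ) = (J : ℝ) / m + (J : ℝ) / m := by ring
      push_cast
      linarith
    have hgs : ow g ≤ Real.sqrt t := (ow_sqrt g hg0).trans (Real.sqrt_le_sqrt (by
      exact_mod_cast Nat.le_of_dvd ht (by rw [hg]; exact Nat.gcd_dvd_right D t)))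
    have hsum0 : 0 ≤ ∑ j ∈ (Finset.range m).filter (fun j => j ≡ x [MOD t]), w j :=
      Finset.sum_nonneg fun j _ => hw.nn j
    calc (((J / m + 1 : ℕ)) : ℝ) * ∑ j ∈ (Finset.range m).filter (fun j => j ≡ x [MOD t]), w j
        ≤ 2 * J / m * (ow g * D / g) := mul_le_mul hq hcp hsum0 (by positivity)
      _ = 2 * J * ow g * (D / (g * m)) := by
        field_simp
      _ = 2 * J * ow g / t := by
        have h5 : (g : ℝ) * m = D * t := by exact_mod_cast hgm
        have hDR : (0 : ℝ) < D := by exact_mod_cast hD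
        rw [h5]
        field_simp
      _ ≤ 2 * J * Real.sqrt t / t := by gcongr
      _ = 2 * J / Real.sqrt t := by
        have h6 : Real.sqrt t * Real.sqrt t = t := Real.mul_self_sqrt htR.le
        have h7 : 0 < Real.sqrt t := Real.sqrt_pos.2 htR
        rw [div_eq_div_iff htR.ne' h7.ne', mul_assoc, h6]
  · rw [if_neg hc]
    have h1 : ∑ j ∈ (Finset.Icc 1 J).filter (fun j => j ≡ x [MOD t]), w j ≤
        ow D * (((Finset.Icc 1 J).filter (fun j => j ≡ x [MOD t])).card : ℝ) := by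
      have := Finset.sum_le_card_nsmul ((Finset.Icc 1 J).filter (fun j => j ≡ x [MOD t])) w (ow D)
        (fun j _ => w_le D hD w hw j)
      rw [nsmul_eq_mul, mul_comm] at this
      exact this
    have h2 := mul_le_mul_of_nonneg_left (wdb_card t J ht x) how
    have h3 : 0 ≤ 2 * (J : ℝ) / Real.sqrt t := by positivity
    linarith

theorem mass_lower (D J : ℕ) (hD : 0 < D) (w : ℕ → ℝ) (hw : WT D w) (c : ℝ) (hc : 0 ≤ c)
    (hm : c * D ≤ ∑ k ∈ Finset.range D, w k) (hJ : D ≤ J) : c * J / 2 ≤ ∑ j ∈ Finset.Icc 1 J, w j := by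
  have hper : Function.Periodic (fun j => w (j + 1)) D := by
    intro j
    show w (j + D + 1) = w (j + 1)
    rw [show j + D + 1 = j + 1 + D by ring]
    exact hw.per _
  have hb := wdb_blocks _ D hper (J / D)
  have h1 : ∑ j ∈ Finset.range D, w (j + 1) = ∑ j ∈ Finset.range D, w j := by
    have h2 := Finset.sum_range_succ w D
    have h3 := Finset.sum_range_succ' w D
    have h4 : w D = w 0 := by
      have := hw.per 0
      rwa [zero_add] at this
    linarith
  have h5 : ∑ j ∈ Finset.range (D * (J / D)), w (j + 1) ≤ ∑ j ∈ Finset.Icc 1 J, w j := by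
    have h6 : ∑ j ∈ Finset.range (D * (J / D)), w (j + 1) =
        ∑ j ∈ (Finset.range (D * (J / D))).image (fun j => j + 1), w j := by
      rw [Finset.sum_image]
      intro a _ b _ hab
      exact Nat.succ.inj hab
    rw [h6]
    refine Finset.sum_le_sum_of_subset_of_nonneg ?_ fun k _ _ => hw.nn k
    intro k hk
    rw [Finset.mem_image] at hk
    obtain ⟨j, hj, rfl⟩ := hk
    rw [Finset.mem_range] at hj
    have := Nat.mul_div_le J D
    rw [Finset.mem_Icc]
    omega
  have hq1 : 1 ≤ J / D := Nat.div_pos hJ hD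
  have hJ2 : (J : ℝ) / 2 ≤ D * ((J / D : ℕ) : ℝ) := by
    have h7 := Nat.lt_mul_div_succ J hD
    have h8 : (J : ℝ) < D * (((J / D : ℕ) : ℝ) + 1) := by exact_mod_cast h7
    have h9 : (1 : ℝ) ≤ ((J / D : ℕ) : ℝ) := by exact_mod_cast hq1
    have hDR : (0 : ℝ) < D := by exact_mod_cast hD
    nlinarith
  calc c * J / 2 = c * (J / 2) := by ring
    _ ≤ c * (D * ((J / D : ℕ) : ℝ)) := mul_le_mul_of_nonneg_left hJ2 hc
    _ = ((J / D : ℕ) : ℝ) * (c * D) := by ring
    _ ≤ ((J / D : ℕ) : ℝ) * ∑ k ∈ Finset.range D, w k :=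
      mul_le_mul_of_nonneg_left hm (by positivity)
    _ = ∑ j ∈ Finset.range (D * (J / D)), w (j + 1) := by rw [hb, h1]
    _ ≤ _ := h5

theorem mass_upper (D J : ℕ) (hD : 0 < D) (w : ℕ → ℝ) (hw : WT D w) (hJ : D ≤ J) :
    ∑ j ∈ Finset.Icc 1 J, w j ≤ 2 * J := by
  have h := wd_bound D 1 J hD Nat.one_pos w hw 0
  have h1 : (Finset.Icc 1 J).filter (fun j => j ≡ 0 [MOD 1]) = Finset.Icc 1 J := by
    apply Finset.filter_true_of_mem
    intro j _
    exact Nat.modEq_one
  rw [h1, one_mul, if_pos hJ, Nat.cast_one, Real.sqrt_one, div_one, add_zero] at h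
  exact h

end Pool.H53.NA
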