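import Pool.Agent.H53.NU.RsB
import Pool.Agent.H53.NU.Fdv
import Pool.Agent.H53.NU.Wdb

/-!
Row Avb: the average of `FF` over the differences.

PROOFS.  `inner_bound`: `y = J + 2`, `h = AA D i' j' - A > 0`, `h ≤ 2^j' + 2^(D i') ≤ 2^(J+1) < 2^y`.  By `FF_le`
`∑_{j'} w j' [A < AA D i' j'] FF h ≤ e⁴ ∑_{d ∣ oddp y} g4 d ∑_{j' : d ∣ h, A < AA D i' j'} w j'`.  For fixed `d` (odd) all these `j'` are congruent
modulo `t_d = orderOf (2 : ZMod d)`: `2^j' = A - 2^(D i')` in `ZMod d`, and `2^a = 2^b` in `ZMod d` implies `a ≡ b mod t_d` (`2` is a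
unit; `pow_eq_pow_iff_modEq`).  So by `wd_bound` (if there is such a `j'` take `x = j'`)
the inner sum is `≤ 2J/√t_d + [t_d D > J] ow D (J/t_d + 1)`.  Sum over `d` with `rom_sum`, `g4_sum`:
`∑ g4 d/√t_d ≤ C1`; `∑_{t_d > J/D} g4 d/t_d ≤ √(D/J) ∑ g4 d/√t_d ≤ √(D/J) C1`; `∑ g4 d ≤ C2 (log (J+2))⁴`.  Total
`≤ e⁴ (2 J C1 + ow D √(D J) C1 + ow D C2 (log (J+2))⁴) ≤ e⁴ (2 C1 + 1) J` for `J ≥ J0(D)` (`w` enters only through `ow D`).
`av_bound`: sum `inner_bound` over `i', i, j` with `∑_j w j ≤ 2J` (`mass_upper`).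
-/

set_option autoImplicit false

namespace Pool.H53.NA

theorem avb_asym (a b : ℝ) : ∃ J0 : ℕ, ∀ J : ℕ, J0 ≤ J →
    a * Real.sqrt J + b * (Real.log ((J + 2 : ℕ) : ℝ)) ^ 4 ≤ J := by
  have h2 : (fun J : ℕ => b * (Real.log ((J + 2 : ℕ) : ℝ)) ^ 4) =o[Filter.atTop]
      (fun J : ℕ => (J : ℝ)) := by
    have h3 : (fun J : ℕ => (Real.log ((J + 2 : ℕ) : ℝ)) ^ 4) =o[Filter.atTop]
        (fun J : ℕ => ((J + 2 : ℕ) : ℝ)) := by
      have h4 := Real.isLittleO_pow_log_id_atTop (n := 4)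
      have h5 : Filter.Tendsto (fun J : ℕ => ((J + 2 : ℕ) : ℝ)) Filter.atTop Filter.atTop :=
        tendsto_natCast_atTop_atTop.comp (Filter.tendsto_add_atTop_nat 2)
      exact h4.comp_tendsto h5
    have h6 : (fun J : ℕ => ((J + 2 : ℕ) : ℝ)) =O[Filter.atTop] (fun J : ℕ => (J : ℝ)) := by
      refine Asymptotics.IsBigO.of_bound 3 ?_
      filter_upwards [Filter.eventually_ge_atTop 1] with J hJ
      have hJ' : (1 : ℝ) ≤ J := by exact_mod_cast hJ
      rw [Real.norm_of_nonneg (by positivity), Real.norm_of_nonneg (by positivity)]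
      push_cast
      linarith
    exact (h3.trans_isBigO h6).const_mul_left b
  have h7 := h2.bound (show (0 : ℝ) < 1 / 2 by norm_num)
  obtain ⟨J0, hJ0⟩ := Filter.eventually_atTop.1 h7
  refine ⟨max J0 (⌈4 * a ^ 2⌉₊), fun J hJ => ?_⟩
  have h8 := hJ0 J ((le_max_left _ _).trans hJ)
  rw [Real.norm_of_nonneg (show (0 : ℝ) ≤ (J : ℝ) by positivity)] at h8
  have h9 : 4 * a ^ 2 ≤ J := (Nat.le_ceil _).trans (by exact_mod_cast (le_max_right _ _).trans hJ)
  have h10 : 2 * a ≤ Real.sqrt J := by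
    refine (le_abs_self _).trans (Real.abs_le_sqrt ?_)
    nlinarith
  have h11 : a * Real.sqrt J ≤ 1 / 2 * J := by
    have h12 : (J : ℝ) = Real.sqrt J * Real.sqrt J := (Real.mul_self_sqrt (by positivity)).symm
    have h13 := mul_le_mul_of_nonneg_right h10 (Real.sqrt_nonneg (J : ℝ))
    nlinarith
  have h14 := (le_abs_self _).trans h8
  linarith

theorem avb_modeq (d a b : ℕ) (hd : Odd d) (hab : (2 : ZMod d) ^ a = 2 ^ b) :
    a ≡ b [MOD orderOf (2 : ZMod d)] := by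
  have hc : Nat.Coprime 2 d := hd.coprime_two_left
  have hu : ((ZMod.unitOfCoprime 2 hc : (ZMod d)ˣ) : ZMod d) = 2 := by
    rw [ZMod.coe_unitOfCoprime]; norm_cast
  have h1 : (ZMod.unitOfCoprime 2 hc) ^ a = (ZMod.unitOfCoprime 2 hc) ^ b := by
    apply Units.ext
    rw [Units.val_pow_eq_pow_val, Units.val_pow_eq_pow_val, hu, hab]
  have h2 := pow_eq_pow_iff_modEq.1 h1
  rwa [← orderOf_units, hu] at h2

theorem avb_ord_pos (d : ℕ) (hd : Odd d) : 0 < orderOf (2 : ZMod d) := by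
  have hc : Nat.Coprime 2 d := hd.coprime_two_left
  have hu : ((ZMod.unitOfCoprime 2 hc : (ZMod d)ˣ) : ZMod d) = 2 := by
    rw [ZMod.coe_unitOfCoprime]; norm_cast
  have : NeZero d := ⟨by rintro rfl; exact absurd hd (by decide)⟩
  rw [← hu, orderOf_units]
  exact orderOf_pos _

theorem avb_class (D J : ℕ) (hD : 0 < D) (w : ℕ → ℝ) (hw : WT D w) (A i' d : ℕ) (hd : Odd d) :
    ∑ j' ∈ Finset.Icc 1 J, (if A < AA D i' j' ∧ d ∣ AA D i' j' - A then w j' else 0)
      ≤ 2 * J / Real.sqrt (orderOf (2 : ZMod d))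
        + (if orderOf (2 : ZMod d) * D ≤ J then 0 else ow D * ((J : ℝ) / orderOf (2 : ZMod d) + 1)) := by
  have hpos := avb_ord_pos d hd
  by_cases hex : ∃ x, A < AA D i' x ∧ d ∣ AA D i' x - A
  · obtain ⟨x, hx1, hx2⟩ := hex
    refine le_trans ?_ (wd_bound D (orderOf (2 : ZMod d)) J hD hpos w hw x)
    rw [Finset.sum_filter]
    refine Finset.sum_le_sum fun j' _ => ?_
    by_cases hj : A < AA D i' j' ∧ d ∣ AA D i' j' - A
    · rw [if_pos hj, if_pos]
      apply avb_modeq d j' x hd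
      have h1 : (((AA D i' j' - A : ℕ) : ℤ) : ZMod d) = 0 := by
        have := (ZMod.natCast_eq_zero_iff (AA D i' j' - A) d).2 hj.2
        exact_mod_cast this
      have h2 : (((AA D i' x - A : ℕ) : ℤ) : ZMod d) = 0 := by
        have := (ZMod.natCast_eq_zero_iff (AA D i' x - A) d).2 hx2
        exact_mod_cast this
      rw [Nat.cast_sub hj.1.le] at h1
      rw [Nat.cast_sub hx1.le] at h2
      unfold AA at h1 h2
      push_cast at h1 h2
      linear_combination h1 - h2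
    · rw [if_neg hj]
      split_ifs
      · exact hw.nn j'
      · exact le_refl _
  · have h0 : ∑ j' ∈ Finset.Icc 1 J, (if A < AA D i' j' ∧ d ∣ AA D i' j' - A then w j' else 0) = 0 := by
      refine Finset.sum_eq_zero fun j' _ => if_neg fun h => hex ⟨j', h⟩
    rw [h0]
    have how : 0 ≤ ow D := by unfold ow; positivity
    refine add_nonneg (by positivity) ?_
    split_ifs
    · exact le_refl _
    · positivity

theorem inner_bound : ∃ C : ℝ, 0 < C ∧ ∀ D : ℕ, 0 < D → ∃ J0 : ℕ, D ≤ J0 ∧ ∀ J : ℕ, J0 ≤ J →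
    ∀ w : ℕ → ℝ, WT D w → ∀ A i' : ℕ, D * i' ≤ J →
    ∑ j' ∈ Finset.Icc 1 J, (if A < AA D i' j' then w j' * FF (AA D i' j' - A) else 0) ≤ C * J := by
  obtain ⟨C1, hC1, hrom⟩ := rom_sum
  obtain ⟨C2, hC2, hg4⟩ := g4_sum
  refine ⟨Real.exp 4 * (2 * C1 + 1), by positivity, ?_⟩
  intro D hD
  have how : 0 ≤ ow D := by unfold ow; positivity
  obtain ⟨J1, hJ1⟩ := avb_asym (ow D * Real.sqrt D * C1) (ow D * C2)
  refine ⟨max D J1, le_max_left _ _, ?_⟩
  intro J hJ w hw A i' hi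
  have hJD : D ≤ J := (le_max_left _ _).trans hJ
  have hJ2 := hJ1 J ((le_max_right _ _).trans hJ)
  have hJpos : (0 : ℝ) < J := by exact_mod_cast (by omega : 0 < J)
  have hgnn : ∀ d, 0 ≤ g4 d := fun d => by unfold g4; positivity
  set S := (oddp (J + 2)).divisors with hS
  -- step 1
  have hstep1 : ∑ j' ∈ Finset.Icc 1 J, (if A < AA D i' j' then w j' * FF (AA D i' j' - A) else 0)
      ≤ ∑ j' ∈ Finset.Icc 1 J, ∑ d ∈ S, Real.exp 4 * (g4 d *
        (if A < AA D i' j' ∧ d ∣ AA D i' j' - A then w j' else 0)) := by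
    refine Finset.sum_le_sum fun j' hj' => ?_
    rw [Finset.mem_Icc] at hj'
    by_cases hA : A < AA D i' j'
    · rw [if_pos hA]
      have hlt : AA D i' j' - A < 2 ^ (J + 2) := by
        unfold AA
        have h1 : 2 ^ j' ≤ 2 ^ J := Nat.pow_le_pow_right (by norm_num) hj'.2
        have h2 : 2 ^ (D * i') ≤ 2 ^ J := Nat.pow_le_pow_right (by norm_num) hi
        have h3 : 2 ^ (J + 2) = 4 * 2 ^ J := by ring
        have h4 : 0 < 2 ^ J := by positivity
        omega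
      have h5 := FF_le (J + 2) (AA D i' j' - A) (by omega) (by omega) hlt
      rw [Finset.sum_filter] at h5
      calc w j' * FF (AA D i' j' - A)
          ≤ w j' * (Real.exp 4 * ∑ d ∈ S, if d ∣ AA D i' j' - A then g4 d else 0) :=
            mul_le_mul_of_nonneg_left h5 (hw.nn j')
        _ = ∑ d ∈ S, Real.exp 4 * (g4 d *
              (if A < AA D i' j' ∧ d ∣ AA D i' j' - A then w j' else 0)) := by
            rw [Finset.mul_sum, Finset.mul_sum]
            refine Finset.sum_congr rfl fun d _ => ?_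
            by_cases hdv : d ∣ AA D i' j' - A
            · rw [if_pos hdv, if_pos ⟨hA, hdv⟩]; ring
            · rw [if_neg hdv, if_neg (fun h => hdv h.2)]; ring
    · rw [if_neg hA]
      refine Finset.sum_nonneg fun d _ => ?_
      rw [if_neg (fun h => hA h.1)]
      simp
  refine hstep1.trans ?_
  rw [Finset.sum_comm]
  have hstep2 : ∀ d ∈ S, ∑ j' ∈ Finset.Icc 1 J, Real.exp 4 * (g4 d *
        (if A < AA D i' j' ∧ d ∣ AA D i' j' - A then w j' else 0))
      ≤ Real.exp 4 * ((2 * J + ow D * Real.sqrt D * Real.sqrt J) * (g4 d / Real.sqrt (orderOf (2 : ZMod d)))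
        + ow D * g4 d) := by
    intro d hd
    have hodd := (oddp_sq (J + 2) d hd).2
    have hpos := avb_ord_pos d hodd
    rw [← Finset.mul_sum, ← Finset.mul_sum]
    refine mul_le_mul_of_nonneg_left ?_ (Real.exp_pos _).le
    have h1 := avb_class D J hD w hw A i' d hodd
    set t := orderOf (2 : ZMod d) with ht
    have htpos : (0 : ℝ) < t := by exact_mod_cast hpos
    have hst : 0 < Real.sqrt t := Real.sqrt_pos.2 htpos
    have h2 : (if t * D ≤ J then (0 : ℝ) else ow D * ((J : ℝ) / t + 1))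
        ≤ ow D * (Real.sqrt D * Real.sqrt J / Real.sqrt t + 1) := by
      split_ifs with hc
      · positivity
      · refine mul_le_mul_of_nonneg_left ?_ how
        have h3 : (J : ℝ) ≤ t * D := by
          have : J ≤ t * D := by omega
          exact_mod_cast this
        have h4 : (J : ℝ) / t ≤ Real.sqrt D * Real.sqrt J / Real.sqrt t := by
          rw [div_le_div_iff₀ htpos hst]
          have h5 : Real.sqrt J ≤ Real.sqrt t * Real.sqrt D := by
            rw [← Real.sqrt_mul htpos.le]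
            exact Real.sqrt_le_sqrt h3
          have h6 : (J : ℝ) = Real.sqrt J * Real.sqrt J := (Real.mul_self_sqrt hJpos.le).symm
          have h7 : (t : ℝ) = Real.sqrt t * Real.sqrt t := (Real.mul_self_sqrt htpos.le).symm
          calc (J : ℝ) * Real.sqrt t = Real.sqrt J * Real.sqrt t * Real.sqrt J := by
                nth_rw 1 [h6]; ring
            _ ≤ Real.sqrt J * Real.sqrt t * (Real.sqrt t * Real.sqrt D) :=
                mul_le_mul_of_nonneg_left h5 (by positivity)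
            _ = Real.sqrt D * Real.sqrt J * (Real.sqrt t * Real.sqrt t) := by ring
            _ = Real.sqrt D * Real.sqrt J * t := by rw [← h7]
        linarith
    calc g4 d * ∑ j' ∈ Finset.Icc 1 J, (if A < AA D i' j' ∧ d ∣ AA D i' j' - A then w j' else 0)
        ≤ g4 d * (2 * J / Real.sqrt t + ow D * (Real.sqrt D * Real.sqrt J / Real.sqrt t + 1)) := by
          refine mul_le_mul_of_nonneg_left ?_ (hgnn d)
          linarith
      _ = (2 * J + ow D * Real.sqrt D * Real.sqrt J) * (g4 d / Real.sqrt t) + ow D * g4 d := by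
          field_simp
          ring
  refine (Finset.sum_le_sum hstep2).trans ?_
  rw [← Finset.mul_sum, Finset.sum_add_distrib, ← Finset.mul_sum, ← Finset.mul_sum,
    mul_assoc (Real.exp 4)]
  refine mul_le_mul_of_nonneg_left ?_ (Real.exp_pos _).le
  have h1 := hrom S (fun d hd => oddp_sq (J + 2) d hd)
  have h2 := hg4 (J + 2) (by omega)
  have h3 : (2 * J + ow D * Real.sqrt D * Real.sqrt J) * ∑ d ∈ S, g4 d / Real.sqrt (orderOf (2 : ZMod d))
      ≤ (2 * J + ow D * Real.sqrt D * Real.sqrt J) * C1 :=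
    mul_le_mul_of_nonneg_left h1 (by positivity)
  have h4 : ow D * ∑ d ∈ S, g4 d ≤ ow D * (C2 * (Real.log ((J + 2 : ℕ) : ℝ)) ^ 4) :=
    mul_le_mul_of_nonneg_left h2 how
  calc (2 * J + ow D * Real.sqrt D * Real.sqrt J) * ∑ d ∈ S, g4 d / Real.sqrt (orderOf (2 : ZMod d))
        + ow D * ∑ d ∈ S, g4 d
      ≤ (2 * J + ow D * Real.sqrt D * Real.sqrt J) * C1
        + ow D * (C2 * (Real.log ((J + 2 : ℕ) : ℝ)) ^ 4) := add_le_add h3 h4
    _ = 2 * C1 * J + (ow D * Real.sqrt D * C1 * Real.sqrt J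
        + ow D * C2 * (Real.log ((J + 2 : ℕ) : ℝ)) ^ 4) := by ring
    _ ≤ 2 * C1 * J + J := by linarith
    _ = (2 * C1 + 1) * J := by ring

theorem av_bound : ∃ C : ℝ, 0 < C ∧ ∀ D : ℕ, 0 < D → ∃ J0 : ℕ, D ≤ J0 ∧ ∀ J : ℕ, J0 ≤ J →
    ∀ w : ℕ → ℝ, WT D w → ∀ I : ℕ, D * I ≤ J →
    ∑ x ∈ Finset.Icc 1 I ×ˢ Finset.Icc 1 J, ∑ x' ∈ Finset.Icc 1 I ×ˢ Finset.Icc 1 J,
      (if AA D x.1 x.2 < AA D x'.1 x'.2 then w x.2 * w x'.2 * FF (AA D x'.1 x'.2 - AA D x.1 x.2) else 0)
      ≤ C * (I : ℝ) ^ 2 * (J : ℝ) ^ 2 := by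
  obtain ⟨C, hC, hin⟩ := inner_bound
  refine ⟨2 * C, by positivity, ?_⟩
  intro D hD
  obtain ⟨J0, hDJ, hJ0⟩ := hin D hD
  refine ⟨J0, hDJ, ?_⟩
  intro J hJ w hw I hI
  have hmu := mass_upper D J hD w hw (hDJ.trans hJ)
  have h1 : ∀ x ∈ Finset.Icc 1 I ×ˢ Finset.Icc 1 J,
      ∑ x' ∈ Finset.Icc 1 I ×ˢ Finset.Icc 1 J,
        (if AA D x.1 x.2 < AA D x'.1 x'.2 then w x.2 * w x'.2 * FF (AA D x'.1 x'.2 - AA D x.1 x.2) else 0)
      ≤ w x.2 * (C * I * J) := by
    intro x _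
    rw [Finset.sum_product]
    have h2 : ∀ i' ∈ Finset.Icc 1 I, ∑ j' ∈ Finset.Icc 1 J,
        (if AA D x.1 x.2 < AA D i' j' then w x.2 * w j' * FF (AA D i' j' - AA D x.1 x.2) else 0)
        ≤ w x.2 * (C * J) := by
      intro i' hi'
      rw [Finset.mem_Icc] at hi'
      have h3 := hJ0 J hJ w hw (AA D x.1 x.2) i' ((Nat.mul_le_mul_left D hi'.2).trans hI)
      have h4 := mul_le_mul_of_nonneg_left h3 (hw.nn x.2)
      rw [Finset.mul_sum] at h4
      refine le_trans (le_of_eq ?_) h4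
      refine Finset.sum_congr rfl fun j' _ => ?_
      split_ifs
      · ring
      · ring
    refine (Finset.sum_le_sum h2).trans (le_of_eq ?_)
    rw [Finset.sum_const, Nat.card_Icc, nsmul_eq_mul]
    simp
    ring
  refine (Finset.sum_le_sum h1).trans ?_
  rw [← Finset.sum_mul, Finset.sum_product]
  simp only [Finset.sum_const, Nat.card_Icc, nsmul_eq_mul, Nat.add_sub_cancel]
  calc (I : ℝ) * (∑ j ∈ Finset.Icc 1 J, w j) * (C * I * J)
      ≤ (I : ℝ) * (2 * J) * (C * I * J) := by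
        refine mul_le_mul_of_nonneg_right (mul_le_mul_of_nonneg_left hmu (by positivity)) (by positivity)
    _ = 2 * C * (I : ℝ) ^ 2 * (J : ℝ) ^ 2 := by ring

end Pool.H53.NA
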