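import Pool.Agent.H53.NA.Fin2
import Pool.Agent.H17.WBT
import Pool.Agent.H17.Upper
import Pool.Agent.H17.PNT

/-!
Romanoff's theorem in all residue classes, uniformly.  Definitions.
-/

set_option autoImplicit false

namespace Pool.H53.NA

/-- `∏_{p ∣ h, p ≠ 2} (1 + 4/p)` -/
noncomputable def FF (h : ℕ) : ℝ := ∏ p ∈ h.primeFactors.filter (fun p => p ≠ 2), (1 + 4 / (p : ℝ))

/-- `4^ω(d) / d` -/
noncomputable def g4 (d : ℕ) : ℝ := (4 : ℝ) ^ d.primeFactors.card / d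

/-- the product of the odd primes `≤ y` -/
def oddp (y : ℕ) : ℕ := ∏ p ∈ (Finset.Icc 3 y).filter Nat.Prime, p

/-- admissible weights on the exponents -/
structure WT (D : ℕ) (w : ℕ → ℝ) : Prop where
  nn : ∀ k, 0 ≤ w k
  per : ∀ k, w (k + D) = w k
  cls : ∀ i, i ∣ D → ∀ x, ∑ k ∈ (Finset.range D).filter (fun k => k ≡ x [MOD i]), w k
    ≤ ow i * D / i

/-- the sum of the two free powers -/
def AA (D i j : ℕ) : ℕ := 2 ^ j + 2 ^ (D * i)

/-- local Selberg weights of the pair sieve -/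
noncomputable def hp2 (h p : ℕ) : ℝ := if p ∣ h then 1 / ((p : ℝ) - 1) else 2 / ((p : ℝ) - 2)

end Pool.H53.NA
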