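import Pool.Agent.H53.NU.Wdb

/-!
Row Dgn: the diagonal.

PROOFS.  `two_pow_pair`: `2^a + 2^b = 2^c + 2^d` implies `{a,b} = {c,d}`: we may assume `a ≤ b`, `c ≤ d`; if `a < c` divide by `2^a`:
`1 + 2^(b-a) = 2^(c-a) + 2^(d-a)` is even, so `b = a` and `2 = 2^(c-a) + 2^(d-a) ≥ 4`, contradiction; so `a = c`, `b = d` by symmetry.
`diag_bound`: for fixed `x = (i,j)` the `x' = (i',j')` with `2^j' + 2^(D i') = 2^j + 2^(D i)` are `(i,j)` and possibly one with `D i' = j`,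
`j' = D i` (`D > 0`): at most 2.  With `w x'.2 ≤ ow D` (`w_le`) the sum is `≤ 2 ow D ∑_x w x.2 ≤ 2 ow D I 2J` (`mass_upper`).
-/

set_option autoImplicit false

namespace Pool.H53.NA

/-- if the smaller exponent on the left is smaller than both on the right, the sums differ -/
theorem dgn_aux (a b c d : ℕ) (h : 2 ^ a + 2 ^ b = 2 ^ c + 2 ^ d) (hab : a ≤ b) (hcd : c ≤ d) :
    c ≤ a := by
  by_contra hcon
  push Not at hcon
  obtain ⟨c', rfl⟩ := Nat.exists_eq_add_of_lt hcon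
  obtain ⟨b', rfl⟩ := Nat.exists_eq_add_of_le hab
  obtain ⟨d', rfl⟩ := Nat.exists_eq_add_of_le hcd
  have h1 : 2 ^ a * (1 + 2 ^ b') = 2 ^ a * (2 * (2 ^ c' + 2 ^ (c' + d'))) := by
    calc 2 ^ a * (1 + 2 ^ b') = 2 ^ a + 2 ^ (a + b') := by rw [pow_add]; ring
      _ = 2 ^ (a + c' + 1) + 2 ^ (a + c' + 1 + d') := h
      _ = _ := by simp only [pow_add]; ring
  have h2 : 1 + 2 ^ b' = 2 * (2 ^ c' + 2 ^ (c' + d')) := Nat.eq_of_mul_eq_mul_left (by positivity) h1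
  rcases Nat.eq_zero_or_pos b' with hb | hb
  · rw [hb] at h2
    have h3 : 1 ≤ 2 ^ c' := Nat.one_le_two_pow
    have h4 : 1 ≤ 2 ^ (c' + d') := Nat.one_le_two_pow
    omega
  · obtain ⟨k, rfl⟩ : ∃ k, b' = k + 1 := ⟨b' - 1, by omega⟩
    rw [pow_succ] at h2
    omega

theorem dgn_eq (a b c d : ℕ) (h : 2 ^ a + 2 ^ b = 2 ^ c + 2 ^ d) (hab : a ≤ b) (hcd : c ≤ d) :
    a = c ∧ b = d := by
  have h1 := dgn_aux a b c d h hab hcd
  have h2 := dgn_aux c d a b h.symm hcd hab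
  have h3 : a = c := by omega
  refine ⟨h3, ?_⟩
  rw [h3] at h
  have h4 : 2 ^ b = 2 ^ d := by omega
  exact Nat.pow_right_injective (le_refl 2) h4

theorem two_pow_pair (a b c d : ℕ) (h : 2 ^ a + 2 ^ b = 2 ^ c + 2 ^ d) :
    (a = c ∧ b = d) ∨ (a = d ∧ b = c) := by
  rcases le_total a b with hab | hab <;> rcases le_total c d with hcd | hcd
  · exact Or.inl (dgn_eq a b c d h hab hcd)
  · exact Or.inr (dgn_eq a b d c (by omega) hab hcd)
  · obtain ⟨h1, h2⟩ := dgn_eq b a c d (by omega) hab hcd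
    exact Or.inr ⟨h2, h1⟩
  · obtain ⟨h1, h2⟩ := dgn_eq b a d c (by omega) hab hcd
    exact Or.inl ⟨h2, h1⟩

theorem dgn_card (D I J : ℕ) (hD : 0 < D) (x : ℕ × ℕ) :
    ((Finset.Icc 1 I ×ˢ Finset.Icc 1 J).filter fun x' : ℕ × ℕ =>
      AA D x.1 x.2 = AA D x'.1 x'.2).card ≤ 2 := by
  have hsub : ((Finset.Icc 1 I ×ˢ Finset.Icc 1 J).filter fun x' : ℕ × ℕ =>
      AA D x.1 x.2 = AA D x'.1 x'.2) ⊆ {x, (x.2 / D, D * x.1)} := by
    intro x' hx'
    rw [Finset.mem_filter] at hx'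
    obtain ⟨_, he⟩ := hx'
    unfold AA at he
    rw [Finset.mem_insert, Finset.mem_singleton]
    rcases two_pow_pair _ _ _ _ he with ⟨h1, h2⟩ | ⟨h1, h2⟩
    · left
      have h3 : x.1 = x'.1 := Nat.eq_of_mul_eq_mul_left hD h2
      exact Prod.ext h3.symm h1.symm
    · right
      apply Prod.ext
      · simp only
        rw [h1, Nat.mul_div_cancel_left _ hD]
      · simp only
        exact h2.symm
  exact (Finset.card_le_card hsub).trans Finset.card_le_two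

theorem diag_bound (D I J : ℕ) (hD : 0 < D) (hJ : D ≤ J) (w : ℕ → ℝ) (hw : WT D w) :
    ∑ x ∈ Finset.Icc 1 I ×ˢ Finset.Icc 1 J, ∑ x' ∈ Finset.Icc 1 I ×ˢ Finset.Icc 1 J,
      (if AA D x.1 x.2 = AA D x'.1 x'.2 then w x.2 * w x'.2 else 0) ≤ 4 * ow D * I * J := by
  have how : 0 ≤ ow D := by unfold ow; positivity
  have h1 : ∀ x ∈ Finset.Icc 1 I ×ˢ Finset.Icc 1 J, ∑ x' ∈ Finset.Icc 1 I ×ˢ Finset.Icc 1 J,
      (if AA D x.1 x.2 = AA D x'.1 x'.2 then w x.2 * w x'.2 else 0) ≤ w x.2 * (2 * ow D) := by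
    intro x _
    rw [← Finset.sum_filter]
    calc ∑ x' ∈ (Finset.Icc 1 I ×ˢ Finset.Icc 1 J).filter (fun x' => AA D x.1 x.2 = AA D x'.1 x'.2),
          w x.2 * w x'.2
        ≤ ∑ x' ∈ (Finset.Icc 1 I ×ˢ Finset.Icc 1 J).filter
            (fun x' => AA D x.1 x.2 = AA D x'.1 x'.2), w x.2 * ow D := by
          apply Finset.sum_le_sum
          intro x' _
          exact mul_le_mul_of_nonneg_left (w_le D hD w hw _) (hw.nn _)
      _ = (((Finset.Icc 1 I ×ˢ Finset.Icc 1 J).filter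
            (fun x' => AA D x.1 x.2 = AA D x'.1 x'.2)).card : ℝ) * (w x.2 * ow D) := by
          rw [Finset.sum_const, nsmul_eq_mul]
      _ ≤ 2 * (w x.2 * ow D) := by
          apply mul_le_mul_of_nonneg_right _ (mul_nonneg (hw.nn _) how)
          exact_mod_cast dgn_card D I J hD x
      _ = w x.2 * (2 * ow D) := by ring
  calc ∑ x ∈ Finset.Icc 1 I ×ˢ Finset.Icc 1 J, ∑ x' ∈ Finset.Icc 1 I ×ˢ Finset.Icc 1 J,
      (if AA D x.1 x.2 = AA D x'.1 x'.2 then w x.2 * w x'.2 else 0)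
      ≤ ∑ x ∈ Finset.Icc 1 I ×ˢ Finset.Icc 1 J, w x.2 * (2 * ow D) := Finset.sum_le_sum h1
    _ = (I * ∑ j ∈ Finset.Icc 1 J, w j) * (2 * ow D) := by
        rw [← Finset.sum_mul, Finset.sum_product]
        simp only [Finset.sum_const, Nat.card_Icc, Nat.add_sub_cancel, nsmul_eq_mul]
    _ ≤ (I * (2 * J)) * (2 * ow D) := by
        apply mul_le_mul_of_nonneg_right _ (by positivity)
        exact mul_le_mul_of_nonneg_left (mass_upper D J hD w hw hJ) (Nat.cast_nonneg _)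
    _ = 4 * ow D * I * J := by ring

end Pool.H53.NA
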