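import Pool.Agent.H53.NU.Defs

/-!
Row Mom: Cauchy-Schwarz and the second moment.

PROOFS.  `cs_count`: `∑_{τ ∈ T} v τ = ∑_{n ∈ N} R n` with `R n = ∑_{τ, f τ = n} v τ` (terms with `v τ = 0` do not matter), so
`(∑ v)² ≤ |N| ∑_{n ∈ N} (R n)² ≤ |N| ∑_{τ,τ'} [f τ = f τ'] v τ v τ'`.
`moment_one`: `∑_{τ ∈ TT} w = ∑_{x} w x.2 #{p}`.
`moment_two`: expand `TT` as pairs `(x, p)`; for fixed `x, x'` the number of `(p, p')` with `p + S + A = p' + S + A'` (`A = AA D x.1 x.2`) is: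
if `A = A'`: `p = p'`, at most `Q`; if `A < A'`: `p = p' + h`, `h = A' - A`, `p'` is in a fixed class modulo `B` and `p', p' + h`
are primes, at most `K FF h`; if `A > A'` symmetric.  Exchange `x, x'` in the last part.
-/

set_option autoImplicit false

namespace Pool.H53.NA

theorem cs_count {Ω : Type} [DecidableEq Ω] (T : Finset Ω) (v : Ω → ℝ) (hv : ∀ τ ∈ T, 0 ≤ v τ)
    (f : Ω → ℕ) (N : Finset ℕ) (hN : ∀ τ ∈ T, 0 < v τ → f τ ∈ N) :
    (∑ τ ∈ T, v τ) ^ 2 ≤ N.card * ∑ τ ∈ T, ∑ τ' ∈ T, (if f τ = f τ' then v τ * v τ' else 0) := by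
  have h1 : ∑ τ ∈ T, v τ = ∑ n ∈ N, ∑ τ ∈ T, (if f τ = n then v τ else 0) := by
    rw [Finset.sum_comm]
    apply Finset.sum_congr rfl
    intro τ hτ
    rw [Finset.sum_ite_eq]
    by_cases h : f τ ∈ N
    · rw [if_pos h]
    · rw [if_neg h]
      have h2 : ¬ 0 < v τ := fun h3 => h (hN τ hτ h3)
      exact le_antisymm (not_lt.mp h2) (hv τ hτ)
  have h2 : (∑ n ∈ N, ∑ τ ∈ T, (if f τ = n then v τ else 0)) ^ 2 ≤
      N.card * ∑ n ∈ N, (∑ τ ∈ T, (if f τ = n then v τ else 0)) ^ 2 :=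
    sq_sum_le_card_mul_sum_sq
  rw [h1]
  refine le_trans h2 ?_
  apply mul_le_mul_of_nonneg_left _ (Nat.cast_nonneg _)
  have h3 : ∀ n, (∑ τ ∈ T, (if f τ = n then v τ else 0)) ^ 2 =
      ∑ τ ∈ T, ∑ τ' ∈ T, (if f τ = n then v τ else 0) * (if f τ' = n then v τ' else 0) := by
    intro n
    rw [sq, Finset.sum_mul_sum]
  rw [Finset.sum_congr rfl (fun n _ => h3 n)]
  rw [Finset.sum_comm]
  apply Finset.sum_le_sum
  intro τ hτ
  rw [Finset.sum_comm]
  apply Finset.sum_le_sum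
  intro τ' hτ'
  have h4 : ∀ n ∈ N, (if f τ = n then v τ else 0) * (if f τ' = n then v τ' else 0) =
      if f τ = n then (if f τ = f τ' then v τ * v τ' else 0) else 0 := by
    intro n _
    by_cases ha : f τ = n
    · by_cases hb : f τ' = n
      · rw [if_pos ha, if_pos hb, if_pos ha, if_pos (ha.trans hb.symm)]
      · rw [if_neg hb, mul_zero, if_pos ha, if_neg]
        intro hc
        exact hb (hc.symm.trans ha)
    · rw [if_neg ha, zero_mul, if_neg ha]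
  rw [Finset.sum_congr rfl h4, Finset.sum_ite_eq]
  have h5 : (0 : ℝ) ≤ if f τ = f τ' then v τ * v τ' else 0 := by
    split_ifs
    · exact mul_nonneg (hv τ hτ) (hv τ' hτ')
    · exact le_rfl
  split_ifs at h5 ⊢ <;> first | exact le_rfl | exact h5

/-- the index set: `((i, j), p)` -/
def TT (D I J Y S a B : ℕ) : Finset ((ℕ × ℕ) × ℕ) :=
  ((Finset.Icc 1 I ×ˢ Finset.Icc 1 J) ×ˢ Finset.Icc 1 Y).filter fun τ =>
    τ.2.Prime ∧ τ.2 + (S + AA D τ.1.1 τ.1.2) ≡ a [MOD B]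

private theorem mom_TT (D I J Y S a B : ℕ) (g : (ℕ × ℕ) × ℕ → ℝ) :
    ∑ τ ∈ TT D I J Y S a B, g τ = ∑ x ∈ Finset.Icc 1 I ×ˢ Finset.Icc 1 J,
      ∑ p ∈ (Finset.Icc 1 Y).filter (fun p => p.Prime ∧ p + (S + AA D x.1 x.2) ≡ a [MOD B]),
        g (x, p) := by
  rw [TT, Finset.sum_filter, Finset.sum_product]
  apply Finset.sum_congr rfl
  intro x _
  rw [Finset.sum_filter]

theorem moment_one (D I J Y S a B : ℕ) (w : ℕ → ℝ) (hw : ∀ k, 0 ≤ w k) (q : ℝ)
    (hq : ∀ i ∈ Finset.Icc 1 I, ∀ j ∈ Finset.Icc 1 J, 0 < w j →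
      q ≤ (((Finset.Icc 1 Y).filter fun p => p.Prime ∧ p + (S + AA D i j) ≡ a [MOD B]).card : ℝ)) :
    q * (I * ∑ j ∈ Finset.Icc 1 J, w j) ≤ ∑ τ ∈ TT D I J Y S a B, w τ.1.2 := by
  rw [mom_TT, Finset.sum_product]
  have h1 : q * (I * ∑ j ∈ Finset.Icc 1 J, w j) =
      ∑ i ∈ Finset.Icc 1 I, ∑ j ∈ Finset.Icc 1 J, q * w j := by
    rw [Finset.sum_const, Nat.card_Icc, ← Finset.mul_sum, nsmul_eq_mul]
    have : I + 1 - 1 = I := by omega
    rw [this]
    ring
  rw [h1]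
  apply Finset.sum_le_sum
  intro i hi
  apply Finset.sum_le_sum
  intro j hj
  show q * w j ≤ ∑ p ∈ (Finset.Icc 1 Y).filter
    (fun p => p.Prime ∧ p + (S + AA D i j) ≡ a [MOD B]), w j
  rw [Finset.sum_const, nsmul_eq_mul]
  by_cases h : 0 < w j
  · exact mul_le_mul_of_nonneg_right (hq i hi j hj h) h.le
  · have h0 : w j = 0 := le_antisymm (not_lt.mp h) (hw j)
    rw [h0, mul_zero, mul_zero]

private theorem mom_pairs (F F' : Finset ℕ) (hF : ∀ p ∈ F, p.Prime) (u v : ℕ) (huv : u ≤ v) :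
    ∑ p ∈ F, ∑ p' ∈ F', (if p + u = p' + v then (1 : ℝ) else 0) ≤
      ((F'.filter fun p' => (p' + (v - u)).Prime).card : ℝ) := by
  rw [Finset.sum_comm, Finset.card_filter, Nat.cast_sum]
  apply Finset.sum_le_sum
  intro p' _
  have h1 : ∀ p ∈ F, (if p + u = p' + v then (1 : ℝ) else 0) =
      if p = p' + (v - u) then (1 : ℝ) else 0 := by
    intro p _
    have : (p + u = p' + v) ↔ (p = p' + (v - u)) := by
      constructor <;> intro h <;> omega
    simp only [this]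
  rw [Finset.sum_congr rfl h1, Finset.sum_ite_eq']
  by_cases h2 : p' + (v - u) ∈ F
  · rw [if_pos h2, if_pos (hF _ h2)]
    simp
  · rw [if_neg h2]
    positivity

private theorem mom_lt (Y S a B : ℕ) (K : ℝ)
    (hK : ∀ c h : ℕ, 0 < h →
      (((Finset.Icc 1 Y).filter fun m => m ≡ c [MOD B] ∧ m.Prime ∧ (m + h).Prime).card : ℝ) ≤ K * FF h)
    (u v : ℕ) (huv : u < v) :
    ∑ p ∈ (Finset.Icc 1 Y).filter (fun p => p.Prime ∧ p + (S + u) ≡ a [MOD B]),
      ∑ p' ∈ (Finset.Icc 1 Y).filter (fun p => p.Prime ∧ p + (S + v) ≡ a [MOD B]),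
        (if p + (S + u) = p' + (S + v) then (1 : ℝ) else 0) ≤ K * FF (v - u) := by
  refine le_trans (mom_pairs _ _ (fun p hp => (Finset.mem_filter.mp hp).2.1) (S + u) (S + v)
    (by omega)) ?_
  have hvu : S + v - (S + u) = v - u := by omega
  rw [hvu]
  rcases Finset.eq_empty_or_nonempty
    (((Finset.Icc 1 Y).filter (fun p => p.Prime ∧ p + (S + v) ≡ a [MOD B])).filter
      fun p' => (p' + (v - u)).Prime) with h0 | ⟨c, hc⟩
  · rw [h0, Finset.card_empty, Nat.cast_zero]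
    exact le_trans (Nat.cast_nonneg _) (hK 0 (v - u) (by omega))
  · refine le_trans ?_ (hK c (v - u) (by omega))
    have hc1 := Finset.mem_filter.mp (Finset.mem_filter.mp hc).1
    rw [Nat.cast_le]
    apply Finset.card_le_card
    intro m hm
    rw [Finset.mem_filter] at hm
    have hm1 := Finset.mem_filter.mp hm.1
    rw [Finset.mem_filter]
    exact ⟨hm1.1, Nat.ModEq.add_right_cancel' (S + v) (hm1.2.2.trans hc1.2.2.symm), hm1.2.1, hm.2⟩

theorem moment_two (D I J Y S a B : ℕ) (w : ℕ → ℝ) (hw : ∀ k, 0 ≤ w k) (K Q : ℝ)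
    (hK : ∀ c h : ℕ, 0 < h →
      (((Finset.Icc 1 Y).filter fun m => m ≡ c [MOD B] ∧ m.Prime ∧ (m + h).Prime).card : ℝ) ≤ K * FF h)
    (hQ : ∀ i ∈ Finset.Icc 1 I, ∀ j ∈ Finset.Icc 1 J, 0 < w j →
      (((Finset.Icc 1 Y).filter fun p => p.Prime ∧ p + (S + AA D i j) ≡ a [MOD B]).card : ℝ) ≤ Q) :
    ∑ τ ∈ TT D I J Y S a B, ∑ τ' ∈ TT D I J Y S a B,
      (if τ.2 + (S + AA D τ.1.1 τ.1.2) = τ'.2 + (S + AA D τ'.1.1 τ'.1.2) then w τ.1.2 * w τ'.1.2 else 0)
    ≤ Q * ∑ x ∈ Finset.Icc 1 I ×ˢ Finset.Icc 1 J, ∑ x' ∈ Finset.Icc 1 I ×ˢ Finset.Icc 1 J,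
        (if AA D x.1 x.2 = AA D x'.1 x'.2 then w x.2 * w x'.2 else 0)
      + 2 * K * ∑ x ∈ Finset.Icc 1 I ×ˢ Finset.Icc 1 J, ∑ x' ∈ Finset.Icc 1 I ×ˢ Finset.Icc 1 J,
        (if AA D x.1 x.2 < AA D x'.1 x'.2 then w x.2 * w x'.2 * FF (AA D x'.1 x'.2 - AA D x.1 x.2) else 0) := by
  -- the number of pairs for fixed exponents
  set NN : ℕ × ℕ → ℕ × ℕ → ℝ := fun x x' =>
    ∑ p ∈ (Finset.Icc 1 Y).filter (fun p => p.Prime ∧ p + (S + AA D x.1 x.2) ≡ a [MOD B]),
      ∑ p' ∈ (Finset.Icc 1 Y).filter (fun p => p.Prime ∧ p + (S + AA D x'.1 x'.2) ≡ a [MOD B]),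
        (if p + (S + AA D x.1 x.2) = p' + (S + AA D x'.1 x'.2) then (1 : ℝ) else 0) with hNN
  have hexp : ∑ τ ∈ TT D I J Y S a B, ∑ τ' ∈ TT D I J Y S a B,
      (if τ.2 + (S + AA D τ.1.1 τ.1.2) = τ'.2 + (S + AA D τ'.1.1 τ'.1.2)
        then w τ.1.2 * w τ'.1.2 else 0) =
      ∑ x ∈ Finset.Icc 1 I ×ˢ Finset.Icc 1 J, ∑ x' ∈ Finset.Icc 1 I ×ˢ Finset.Icc 1 J,
        w x.2 * w x'.2 * NN x x' := by
    rw [mom_TT]
    apply Finset.sum_congr rfl
    intro x _
    rw [Finset.sum_congr rfl (fun p _ => mom_TT D I J Y S a B _)]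
    rw [Finset.sum_comm]
    apply Finset.sum_congr rfl
    intro x' _
    rw [hNN]
    simp only [Finset.mul_sum]
    apply Finset.sum_congr rfl
    intro p _
    apply Finset.sum_congr rfl
    intro p' _
    split_ifs
    · rw [mul_one]
    · rw [mul_zero]
  have hbound : ∀ x ∈ Finset.Icc 1 I ×ˢ Finset.Icc 1 J, ∀ x' ∈ Finset.Icc 1 I ×ˢ Finset.Icc 1 J,
      w x.2 * w x'.2 * NN x x' ≤
        Q * (if AA D x.1 x.2 = AA D x'.1 x'.2 then w x.2 * w x'.2 else 0) +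
        (K * (if AA D x.1 x.2 < AA D x'.1 x'.2 then
          w x.2 * w x'.2 * FF (AA D x'.1 x'.2 - AA D x.1 x.2) else 0) +
        K * (if AA D x'.1 x'.2 < AA D x.1 x.2 then
          w x'.2 * w x.2 * FF (AA D x.1 x.2 - AA D x'.1 x'.2) else 0)) := by
    intro x hx x' hx'
    have hww : 0 ≤ w x.2 * w x'.2 := mul_nonneg (hw _) (hw _)
    rcases lt_trichotomy (AA D x.1 x.2) (AA D x'.1 x'.2) with h | h | h
    · rw [if_neg (ne_of_lt h), if_pos h, if_neg (not_lt.mpr h.le)]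
      have h1 : NN x x' ≤ K * FF (AA D x'.1 x'.2 - AA D x.1 x.2) :=
        mom_lt Y S a B K hK _ _ h
      have h2 := mul_le_mul_of_nonneg_left h1 hww
      linarith
    · rw [if_pos h, if_neg (by omega), if_neg (by omega)]
      rcases (hw x.2).lt_or_eq with h0 | h0
      · have h1 : NN x x' ≤ Q := by
          have hx1 := Finset.mem_product.mp hx
          refine le_trans ?_ (hQ x.1 hx1.1 x.2 hx1.2 h0)
          rw [hNN]
          have h3 : ∀ p ∈ (Finset.Icc 1 Y).filter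
              (fun p => p.Prime ∧ p + (S + AA D x.1 x.2) ≡ a [MOD B]),
              ∑ p' ∈ (Finset.Icc 1 Y).filter
                (fun p => p.Prime ∧ p + (S + AA D x'.1 x'.2) ≡ a [MOD B]),
                (if p + (S + AA D x.1 x.2) = p' + (S + AA D x'.1 x'.2) then (1 : ℝ) else 0) ≤
                1 := by
            intro p _
            have h4 : ∀ p' ∈ (Finset.Icc 1 Y).filter
                (fun p => p.Prime ∧ p + (S + AA D x'.1 x'.2) ≡ a [MOD B]),
                (if p + (S + AA D x.1 x.2) = p' + (S + AA D x'.1 x'.2) then (1 : ℝ) else 0) =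
                if p = p' then (1 : ℝ) else 0 := by
              intro p' _
              rw [h]
              have : (p + (S + AA D x'.1 x'.2) = p' + (S + AA D x'.1 x'.2)) ↔ p = p' := by
                constructor <;> intro hh <;> omega
              simp only [this]
            rw [Finset.sum_congr rfl h4, Finset.sum_ite_eq]
            split_ifs <;> norm_num
          refine le_trans (Finset.sum_le_sum h3) ?_
          rw [Finset.sum_const, nsmul_eq_mul, mul_one]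
        have h2 := mul_le_mul_of_nonneg_left h1 hww
        linarith
      · rw [← h0]
        simp
    · rw [if_neg (ne_of_gt h), if_neg (not_lt.mpr h.le), if_pos h]
      have h1 : NN x x' ≤ K * FF (AA D x.1 x.2 - AA D x'.1 x'.2) := by
        have h5 := mom_lt Y S a B K hK _ _ h
        refine le_trans (le_of_eq ?_) h5
        rw [hNN]
        rw [Finset.sum_comm]
        apply Finset.sum_congr rfl
        intro p _
        apply Finset.sum_congr rfl
        intro p' _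
        simp only [eq_comm]
      have h2 := mul_le_mul_of_nonneg_left h1 hww
      have h3 : w x.2 * w x'.2 * (K * FF (AA D x.1 x.2 - AA D x'.1 x'.2)) =
          K * (w x'.2 * w x.2 * FF (AA D x.1 x.2 - AA D x'.1 x'.2)) := by ring
      linarith
  rw [hexp]
  refine le_trans (Finset.sum_le_sum fun x hx => Finset.sum_le_sum fun x' hx' =>
    hbound x hx x' hx') ?_
  simp only [Finset.sum_add_distrib, ← Finset.mul_sum]
  have hswap : ∑ x ∈ Finset.Icc 1 I ×ˢ Finset.Icc 1 J, ∑ x' ∈ Finset.Icc 1 I ×ˢ Finset.Icc 1 J,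
      (if AA D x'.1 x'.2 < AA D x.1 x.2 then
          w x'.2 * w x.2 * FF (AA D x.1 x.2 - AA D x'.1 x'.2) else 0) =
      ∑ x ∈ Finset.Icc 1 I ×ˢ Finset.Icc 1 J, ∑ x' ∈ Finset.Icc 1 I ×ˢ Finset.Icc 1 J,
      (if AA D x.1 x.2 < AA D x'.1 x'.2 then
          w x.2 * w x'.2 * FF (AA D x'.1 x'.2 - AA D x.1 x.2) else 0) := by
    rw [Finset.sum_comm]
  rw [hswap]
  apply le_of_eq
  ring

end Pool.H53.NA
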