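import Pool.Agent.H53.NU.Defs

/-!
Row Pcn: the number of primes in a residue class.

PROOF.  `piAP_tendsto` of `Pool.Agent.H17.PNT` for each of the finitely many units `c` of `ZMod B`: eventually
`1/(2φ(B)) ≤ piAP c x * log x/x ≤ 2/φ(B)`; take the maximum of the thresholds.  `piAP c (X : ℝ)` is the number of primes `p ≤ X` with
`(p : ZMod B) = c` (`Nat.floor_natCast`, `ZMod.natCast_eq_natCast_iff`; `c` coprime to `B` gives `IsUnit (c : ZMod B)`,
`ZMod.isUnit_iff_coprime`).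
-/

set_option autoImplicit false

namespace Pool.H53.NA

open Filter Topology

theorem pcn_one (B : ℕ) (hB : 0 < B) (c : ZMod B) (hc : IsUnit c) : ∃ X0 : ℕ, ∀ X : ℕ, X0 ≤ X →
    (X : ℝ) / (2 * Nat.totient B * Real.log X) ≤ (Pool.Agent.H17.piAP c (X : ℝ) : ℝ) ∧
    (Pool.Agent.H17.piAP c (X : ℝ) : ℝ) ≤ 2 * X / (Nat.totient B * Real.log X) := by
  have : NeZero B := ⟨hB.ne'⟩
  have hφ : (0 : ℝ) < Nat.totient B := by exact_mod_cast Nat.totient_pos.mpr hB
  have h1 := Pool.Agent.H17.piAP_tendsto hc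
  have h2 : Tendsto (fun n : ℕ => (Pool.Agent.H17.piAP c (n : ℝ) : ℝ) * Real.log n / n) atTop
      (𝓝 ((Nat.totient B : ℝ)⁻¹)) := h1.comp tendsto_natCast_atTop_atTop
  have h3 : ∀ᶠ n : ℕ in atTop, ((Nat.totient B : ℝ)⁻¹) / 2
      < (Pool.Agent.H17.piAP c (n : ℝ) : ℝ) * Real.log n / n :=
    h2.eventually_const_lt (by have := inv_pos.mpr hφ; linarith)
  have h4 : ∀ᶠ n : ℕ in atTop, (Pool.Agent.H17.piAP c (n : ℝ) : ℝ) * Real.log n / n
      < ((Nat.totient B : ℝ)⁻¹) * 2 :=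
    h2.eventually_lt_const (by have := inv_pos.mpr hφ; linarith)
  obtain ⟨X0, hX0⟩ := (h3.and (h4.and (eventually_ge_atTop 2))).exists_forall_of_atTop
  refine ⟨X0, fun X hX => ?_⟩
  obtain ⟨a1, a2, a3⟩ := hX0 X hX
  have hXR : (2 : ℝ) ≤ X := by exact_mod_cast a3
  have hX0R : (0 : ℝ) < X := by linarith
  have hlog : 0 < Real.log X := Real.log_pos (by linarith)
  constructor
  · rw [div_le_iff₀ (by positivity)]
    rw [lt_div_iff₀ hX0R] at a1
    have h5 : (Nat.totient B : ℝ)⁻¹ / 2 * X * (2 * Nat.totient B)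
        ≤ (Pool.Agent.H17.piAP c (X : ℝ) : ℝ) * Real.log X * (2 * Nat.totient B) := by
      apply mul_le_mul_of_nonneg_right a1.le (by positivity)
    calc (X : ℝ) = (Nat.totient B : ℝ)⁻¹ / 2 * X * (2 * Nat.totient B) := by field_simp
      _ ≤ _ := h5
      _ = _ := by ring
  · rw [le_div_iff₀ (by positivity)]
    rw [div_lt_iff₀ hX0R] at a2
    have h5 : (Pool.Agent.H17.piAP c (X : ℝ) : ℝ) * Real.log X * Nat.totient B
        ≤ (Nat.totient B : ℝ)⁻¹ * 2 * X * Nat.totient B := by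
      apply mul_le_mul_of_nonneg_right a2.le hφ.le
    calc (Pool.Agent.H17.piAP c (X : ℝ) : ℝ) * (Nat.totient B * Real.log X)
        = (Pool.Agent.H17.piAP c (X : ℝ) : ℝ) * Real.log X * Nat.totient B := by ring
      _ ≤ _ := h5
      _ = 2 * X := by field_simp

theorem prime_count (B : ℕ) (hB : 0 < B) : ∃ X0 : ℕ, 2 ≤ X0 ∧ ∀ X : ℕ, X0 ≤ X → ∀ c : ℕ, c.Coprime B →
    (X : ℝ) / (2 * Nat.totient B * Real.log X)
        ≤ (((Finset.Icc 1 X).filter fun p => p.Prime ∧ p ≡ c [MOD B]).card : ℝ) ∧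
      (((Finset.Icc 1 X).filter fun p => p.Prime ∧ p ≡ c [MOD B]).card : ℝ)
        ≤ 2 * X / (Nat.totient B * Real.log X) := by
  classical
  have : NeZero B := ⟨hB.ne'⟩
  have h1 : ∀ c : ZMod B, ∃ X0 : ℕ, IsUnit c → ∀ X : ℕ, X0 ≤ X →
    (X : ℝ) / (2 * Nat.totient B * Real.log X) ≤ (Pool.Agent.H17.piAP c (X : ℝ) : ℝ) ∧
    (Pool.Agent.H17.piAP c (X : ℝ) : ℝ) ≤ 2 * X / (Nat.totient B * Real.log X) := by
    intro c
    by_cases hc : IsUnit c
    · obtain ⟨X0, hX0⟩ := pcn_one B hB c hc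
      exact ⟨X0, fun _ => hX0⟩
    · exact ⟨0, fun h => absurd h hc⟩
  choose F hF using h1
  refine ⟨2 + Finset.univ.sup F, by omega, ?_⟩
  intro X hX c hc
  have hu : IsUnit (c : ZMod B) := (ZMod.isUnit_iff_coprime c B).mpr hc
  have hle : F (c : ZMod B) ≤ Finset.univ.sup F := Finset.le_sup (Finset.mem_univ _)
  have h2 := hF (c : ZMod B) hu X (by omega)
  have h3 : Pool.Agent.H17.piAP (c : ZMod B) (X : ℝ)
      = ((Finset.Icc 1 X).filter fun p => p.Prime ∧ p ≡ c [MOD B]).card := by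
    unfold Pool.Agent.H17.piAP
    rw [Nat.floor_natCast]
    congr 1
    apply Finset.filter_congr
    intro p _
    rw [ZMod.natCast_eq_natCast_iff]
  rw [h3] at h2
  exact h2

end Pool.H53.NA
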