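import Pool.Agent.H53.NU.Defs

/-!
Row PsB: lower bound for the Selberg denominator of the pair sieve.

PROOF.  (Tools: `Op_mono`, `Op_weight_mono`, `Op_comp`, `Op_union`, `Op_upper`, `Hs_le_Op`, `Hs_log` of `Pool.Agent.H17.GBound`; see
`GG_lower` in `Pool.Agent.H17.WBT` and `G1_lower` in GBound for the pattern.)
`w1 p = 1/(p-1)`, `S0` = all primes `≤ z`, `S1 = {p ∈ PPb B z : p ∤ h}`, `S' = {p ≤ z prime : p ∣ B or p ∣ h}`, `S0 = S' ∪ S1`.
(a) `Op (PPb B z) (hp2 h) one1 z ≥ Op S1 (hp2 h) one1 z` (`S1 ⊆ PPb B z`; `Op_union` and the term of the empty set, or sum over a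
larger powerset of nonnegative terms; all these primes are odd as `2 ∣ B`, so `hp2 ≥ 0`)
`≥ Op S1 (w1 + w1 + w1 w1) one1 z` (`2/(p-2) ≥ 2/(p-1) + 1/(p-1)²` for `p ≥ 3`) `≥ Op S1 w1 (Op S1 w1 one1) z` (`Op_comp`).
(b) For monotone `Φ ≥ 0`: `Op S0 w1 Φ = Op S' w1 (Op S1 w1 Φ) ≤ K Op S1 w1 Φ` with `K = ∏_{S'} (1 + w1)` (`Op_upper`).
Twice: `Op S1 w1 (Op S1 w1 one1) z ≥ K⁻² Op S0 w1 (Op S0 w1 one1) z ≥ K⁻² Hs (Hs one1) z ≥ K⁻² (log z)²/2` (`Hs_le_Op` twice, `Hs_log`; the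
bound `(1/2)(log v)² ≤ Hs (Hs one1) ⌊v⌋` is inside the proof of `Hs_three`).
(c) `K² ≤ (Cb B)² ∏_{p ∣ h, p ≠ 2} (1 + 1/(p-1))²` (`2 ∣ B`) and `(1 + 1/(p-1))² ≤ 1 + 4/p` for `p ≥ 3`.
-/

set_option autoImplicit false

namespace Pool.H53.NA

open Pool.Agent.H17

lemma psb_w1_nonneg {p : ℕ} (hp : p.Prime) : 0 ≤ 1 / ((p : ℝ) - 1) := by
  have : (2 : ℝ) ≤ p := by exact_mod_cast hp.two_le
  have h2 : (0 : ℝ) < (p : ℝ) - 1 := by linarith
  positivity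

lemma psb_Op_subset {S T : Finset ℕ} (h : S ⊆ T) {w Φ : ℕ → ℝ} (hw : ∀ p ∈ T, 0 ≤ w p) (hΦ : ∀ u, 0 ≤ Φ u) (u : ℕ) :
    Op S w Φ u ≤ Op T w Φ u := by
  unfold Op
  apply Finset.sum_le_sum_of_subset_of_nonneg (Finset.powerset_mono.mpr h)
  intro U hU _
  rw [Finset.mem_powerset] at hU
  exact mul_nonneg (Finset.prod_nonneg (fun p hp => hw p (hU hp))) (hΦ _)

lemma psb_Hs_two {z : ℕ} (hz : 1 ≤ z) : (Real.log z) ^ 2 / 2 ≤ Hs (Hs one1) z := by
  have h0 : ∀ v : ℝ, 1 ≤ v → 1 * (Real.log v) ^ 0 ≤ one1 ⌊v⌋₊ := by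
    intro v hv
    unfold one1
    rw [if_pos (Nat.le_floor (by exact_mod_cast hv))]
    simp
  have h1 : ∀ v : ℝ, 1 ≤ v → 1 * (Real.log v) ^ 1 ≤ Hs one1 ⌊v⌋₊ := by
    intro v hv
    have := Hs_log h0 zero_le_one hv
    simpa using this
  have hz' : (1 : ℝ) ≤ z := by exact_mod_cast hz
  have := Hs_log h1 zero_le_one hz'
  rw [Nat.floor_natCast] at this
  norm_num at this
  linarith

lemma psb_Kbound {B h : ℕ} (hB : 0 < B) (h2 : 2 ∣ B) (hh : 0 < h) {S : Finset ℕ}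
    (hS : ∀ p ∈ S, p.Prime ∧ (p ∣ B ∨ p ∣ h)) :
    (∏ p ∈ S, (1 + 1 / ((p : ℝ) - 1))) ^ 2 ≤ Cb B ^ 2 * FF h := by
  have hsub : S ⊆ B.primeFactors ∪ h.primeFactors.filter (fun p => p ≠ 2) := by
    intro p hp
    obtain ⟨hpp, hd⟩ := hS p hp
    rw [Finset.mem_union, Finset.mem_filter, Nat.mem_primeFactors, Nat.mem_primeFactors]
    by_cases hp2 : p = 2
    · left
      subst hp2
      exact ⟨hpp, h2, hB.ne'⟩
    · rcases hd with hd | hd
      · left; exact ⟨hpp, hd, hB.ne'⟩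
      · right; exact ⟨⟨hpp, hd, hh.ne'⟩, hp2⟩
  have hone : ∀ p : ℕ, p.Prime → (1 : ℝ) ≤ 1 + 1 / ((p : ℝ) - 1) := by
    intro p hp
    linarith [psb_w1_nonneg hp]
  have hprB : ∀ p ∈ B.primeFactors, p.Prime := fun p hp => Nat.prime_of_mem_primeFactors hp
  have hprh : ∀ p ∈ h.primeFactors.filter (fun p => p ≠ 2), p.Prime :=
    fun p hp => Nat.prime_of_mem_primeFactors (Finset.mem_filter.mp hp).1
  have hprU : ∀ p ∈ B.primeFactors ∪ h.primeFactors.filter (fun p => p ≠ 2), p.Prime := by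
    intro p hp
    rcases Finset.mem_union.mp hp with h | h
    · exact hprB p h
    · exact hprh p h
  have hS0 : 0 ≤ ∏ p ∈ S, (1 + 1 / ((p : ℝ) - 1)) :=
    Finset.prod_nonneg (fun p hp => zero_le_one.trans (hone p (hS p hp).1))
  have b1 : ∏ p ∈ S, (1 + 1 / ((p : ℝ) - 1)) ≤ ∏ p ∈ B.primeFactors ∪ h.primeFactors.filter (fun p => p ≠ 2), (1 + 1 / ((p : ℝ) - 1)) := by
    apply Finset.prod_le_prod_of_subset_of_one_le hsub
    · intro p hp
      exact zero_le_one.trans (hone p (hS p hp).1)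
    · intro p hp _
      exact hone p (hprU p hp)
  have b2 : ∏ p ∈ B.primeFactors ∪ h.primeFactors.filter (fun p => p ≠ 2), (1 + 1 / ((p : ℝ) - 1))
      ≤ Cb B * ∏ p ∈ h.primeFactors.filter (fun p => p ≠ 2), (1 + 1 / ((p : ℝ) - 1)) := by
    unfold Cb
    rw [← Finset.prod_union_inter]
    have b3 : 1 ≤ ∏ p ∈ B.primeFactors ∩ h.primeFactors.filter (fun p => p ≠ 2), (1 + 1 / ((p : ℝ) - 1)) := by
      apply Finset.one_le_prod
      intro p hp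
      exact hone p (hprB p (Finset.mem_inter.mp hp).1)
    have b4 : 0 ≤ ∏ p ∈ B.primeFactors ∪ h.primeFactors.filter (fun p => p ≠ 2), (1 + 1 / ((p : ℝ) - 1)) :=
      Finset.prod_nonneg (fun p hp => zero_le_one.trans (hone p (hprU p hp)))
    nlinarith
  have b5 : (∏ p ∈ h.primeFactors.filter (fun p => p ≠ 2), (1 + 1 / ((p : ℝ) - 1))) ^ 2 ≤ FF h := by
    unfold FF
    rw [← Finset.prod_pow]
    apply Finset.prod_le_prod
    · intro p hp
      positivity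
    · intro p hp
      have hpp := hprh p hp
      have hp2 : p ≠ 2 := (Finset.mem_filter.mp hp).2
      have h3 : 3 ≤ p := by
        have := hpp.two_le
        omega
      have h3' : (3 : ℝ) ≤ p := by exact_mod_cast h3
      have h4 : (0 : ℝ) < (p : ℝ) - 1 := by linarith
      have h5 : (0 : ℝ) < (p : ℝ) := by linarith
      rw [show (1 + 1 / ((p : ℝ) - 1)) = p / ((p : ℝ) - 1) by field_simp; ring, show (1 + 4 / (p : ℝ)) = (p + 4) / p by field_simp,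
        div_pow, div_le_div_iff₀ (by positivity) h5]
      nlinarith [mul_nonneg (sub_nonneg.mpr h3') (sub_nonneg.mpr h3')]
  have b6 : ∏ p ∈ S, (1 + 1 / ((p : ℝ) - 1)) ≤ Cb B * ∏ p ∈ h.primeFactors.filter (fun p => p ≠ 2), (1 + 1 / ((p : ℝ) - 1)) :=
    b1.trans b2
  calc (∏ p ∈ S, (1 + 1 / ((p : ℝ) - 1))) ^ 2
      ≤ (Cb B * ∏ p ∈ h.primeFactors.filter (fun p => p ≠ 2), (1 + 1 / ((p : ℝ) - 1))) ^ 2 := by
        gcongr
    _ = Cb B ^ 2 * (∏ p ∈ h.primeFactors.filter (fun p => p ≠ 2), (1 + 1 / ((p : ℝ) - 1))) ^ 2 := by ring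
    _ ≤ Cb B ^ 2 * FF h := by gcongr

theorem pair_GG (B h z : ℕ) (hB : 0 < B) (h2 : 2 ∣ B) (hh : 0 < h) (hz : 1 ≤ z) :
    (Real.log z) ^ 2 / 2 ≤ Cb B ^ 2 * FF h * Op (PPb B z) (hp2 h) one1 z := by
  set S0 : Finset ℕ := (Finset.range (z + 1)).filter Nat.Prime with hS0
  set S1 : Finset ℕ := S0.filter (fun p => ¬ (p ∣ B ∨ p ∣ h)) with hS1
  set S' : Finset ℕ := S0.filter (fun p => p ∣ B ∨ p ∣ h) with hS'
  have hun : S' ∪ S1 = S0 := Finset.filter_union_filter_not_eq _ _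
  have hdis : Disjoint S' S1 := Finset.disjoint_filter_filter_not _ _ _
  have hp0 : ∀ p ∈ S0, p.Prime := fun p hp => (Finset.mem_filter.mp hp).2
  have hp1 : ∀ p ∈ S1, p.Prime := fun p hp => hp0 p (Finset.mem_filter.mp hp).1
  have hp' : ∀ p ∈ S', p.Prime := fun p hp => hp0 p (Finset.mem_filter.mp hp).1
  set g : ℕ → ℝ := fun p => 1 / ((p : ℝ) - 1) with hg
  have g0 : ∀ p ∈ S0, 0 ≤ g p := fun p hp => psb_w1_nonneg (hp0 p hp)
  have g1 : ∀ p ∈ S1, 0 ≤ g p := fun p hp => psb_w1_nonneg (hp1 p hp)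
  have g' : ∀ p ∈ S', 0 ≤ g p := fun p hp => psb_w1_nonneg (hp' p hp)
  have hall : ∀ u ≤ z, ∀ p : ℕ, p.Prime → p ≤ u → p ∈ S0 := by
    intro u hu p hp hpu
    rw [hS0, Finset.mem_filter, Finset.mem_range]
    exact ⟨by omega, hp⟩
  set K : ℝ := ∏ p ∈ S', (1 + g p) with hK
  have hK0 : 0 ≤ K := Finset.prod_nonneg (fun p hp => by linarith [g' p hp])
  have comp : ∀ {Φ : ℕ → ℝ}, Monotone Φ → ∀ u, Op S0 g Φ u ≤ K * Op S1 g Φ u := by
    intro Φ hΦ u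
    rw [← hun, Op_union hdis]
    exact Op_upper g' (Op_mono g1 hΦ) u
  have m0 : Monotone (Op S0 g one1) := Op_mono g0 one1_mono
  have m1 : Monotone (Op S1 g one1) := Op_mono g1 one1_mono
  have n0 : ∀ u, 0 ≤ Op S0 g one1 u := fun u => Op_nonneg g0 one1_nonneg u
  have s1 : ∀ u ≤ z, Hs one1 u ≤ Op S0 g one1 u := fun u hu => Hs_le_Op hp0 one1_mono one1_nonneg (hall u hu)
  have s2 : Hs (Hs one1) z ≤ Op S0 g (Op S0 g one1) z :=
    (Hs_mono_arg (fun w hw => s1 w hw)).trans (Hs_le_Op hp0 m0 n0 (hall z le_rfl))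
  have s3 : Op S0 g (Op S0 g one1) z ≤ K * Op S1 g (Op S0 g one1) z := comp m0 z
  have s4 : Op S1 g (Op S0 g one1) z ≤ Op S1 g (fun v => K * Op S1 g one1 v) z :=
    Op_le_Op g1 (fun v _ => comp one1_mono v)
  rw [Op_smul] at s4
  have s5 : Op S1 g (Op S1 g one1) z ≤ Op S1 (fun p => g p + g p + g p * g p) one1 z :=
    Op_comp g1 g1 (fun p _ => rfl) one1_mono z
  have three : ∀ p : ℕ, p.Prime → ¬ p ∣ B → (3 : ℝ) ≤ p := by
    intro p hp hpB
    have h3 : p ≠ 2 := by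
      rintro rfl
      exact hpB h2
    have := hp.two_le
    have h4 : 3 ≤ p := by omega
    exact_mod_cast h4
  have s6 : Op S1 (fun p => g p + g p + g p * g p) one1 z ≤ Op S1 (hp2 h) one1 z := by
    apply Op_weight_mono _ _ one1_nonneg
    · intro p hp
      have := g1 p hp
      positivity
    · intro p hp
      rw [hS1, Finset.mem_filter] at hp
      have hpp := hp0 p hp.1
      have h3 := three p hpp (fun h => hp.2 (Or.inl h))
      have hnh : ¬ p ∣ h := fun h => hp.2 (Or.inr h)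
      unfold hp2
      rw [if_neg hnh]
      simp only [hg]
      have h4 : (0 : ℝ) < (p : ℝ) - 1 := by linarith
      have h5 : (0 : ℝ) < (p : ℝ) - 2 := by linarith
      rw [show 1 / ((p : ℝ) - 1) + 1 / ((p : ℝ) - 1) + 1 / ((p : ℝ) - 1) * (1 / ((p : ℝ) - 1)) = (2 * (p - 1) + 1) / ((p : ℝ) - 1) ^ 2 by
        field_simp; ring, div_le_div_iff₀ (by positivity) h5]
      nlinarith
  have hnn : ∀ p ∈ PPb B z, 0 ≤ hp2 h p := by
    intro p hp
    unfold PPb at hp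
    rw [Finset.mem_filter] at hp
    have h3 := three p hp.2.1 hp.2.2
    unfold hp2
    have h4 : (0 : ℝ) < (p : ℝ) - 1 := by linarith
    have h5 : (0 : ℝ) < (p : ℝ) - 2 := by linarith
    split_ifs <;> positivity
  have s7 : Op S1 (hp2 h) one1 z ≤ Op (PPb B z) (hp2 h) one1 z := by
    apply psb_Op_subset _ hnn one1_nonneg
    intro p hp
    rw [hS1, Finset.mem_filter, hS0, Finset.mem_filter] at hp
    unfold PPb
    rw [Finset.mem_filter]
    exact ⟨hp.1.1, hp.1.2, fun h => hp.2 (Or.inl h)⟩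
  have s8 : Op S1 g (Op S1 g one1) z ≤ Op (PPb B z) (hp2 h) one1 z := s5.trans (s6.trans s7)
  have n1 : 0 ≤ Op S1 g (Op S1 g one1) z := Op_nonneg g1 (fun u => Op_nonneg g1 one1_nonneg u) z
  have hKb : K ^ 2 ≤ Cb B ^ 2 * FF h := by
    apply psb_Kbound hB h2 hh
    intro p hp
    exact ⟨hp' p hp, (Finset.mem_filter.mp hp).2⟩
  calc (Real.log z) ^ 2 / 2 ≤ Hs (Hs one1) z := psb_Hs_two hz
    _ ≤ K * Op S1 g (Op S0 g one1) z := s2.trans s3
    _ ≤ K * (K * Op S1 g (Op S1 g one1) z) := by gcongr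
    _ = K ^ 2 * Op S1 g (Op S1 g one1) z := by ring
    _ ≤ (Cb B ^ 2 * FF h) * Op S1 g (Op S1 g one1) z := by gcongr
    _ ≤ Cb B ^ 2 * FF h * Op (PPb B z) (hp2 h) one1 z := by
        have : 0 ≤ Cb B ^ 2 * FF h := (sq_nonneg K).trans hKb
        gcongr

end Pool.H53.NA
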