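import Pool.Agent.H53.NU.PsA
import Pool.Agent.H53.NU.PsB

/-!
Row PsC: the upper bound for prime pairs in a residue class.

PROOF.  `c0 = c % B`, `N = X / B`.  The `m ≤ X` with `m ≡ c mod B` are `c0 + B m'` with `0 ≤ m' ≤ N`; `m' = 0` contributes at most 1.
`z = ⌊X^(1/16)⌋`.  `pair_selberg` with `(∑_{l ≤ z} 2^ω(l))² ≤ (z²)²` (`2^ω(l) ≤ l`; `∏_{p ∣ l} 2 ≤ ∏_{p ∣ l} p ≤ l`) gives
`count ≤ 1 + z + z⁴ + N G⁻¹`, and `pair_GG` gives `G⁻¹ ≤ 2 Cb² FF/(log z)²`.  For `X ≥ X0(B)`: `log z ≥ (log X)/20`,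
`1 + z + z⁴ ≤ 1 + X^(1/16) + X^(1/4) ≤ (X/B)/(log X)²`.  As `FF h ≥ 1`, `Cb B ≥ 1`, the constant `C = 801` works.
-/

set_option autoImplicit false

namespace Pool.H53.NA

open Pool.Agent.H17

lemma psc_FF (h : ℕ) : 1 ≤ FF h := by
  unfold FF
  calc (1 : ℝ) = ∏ _p ∈ h.primeFactors.filter (fun p => p ≠ 2), (1 : ℝ) := by simp
    _ ≤ _ := by
      refine Finset.prod_le_prod (fun _ _ => zero_le_one) (fun p _ => ?_)
      have : (0 : ℝ) ≤ 4 / (p : ℝ) := by positivity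
      linarith

lemma psc_Cb (b : ℕ) : 1 ≤ Cb b := by
  unfold Cb
  calc (1 : ℝ) = ∏ _p ∈ b.primeFactors, (1 : ℝ) := by simp
    _ ≤ _ := by
      refine Finset.prod_le_prod (fun _ _ => zero_le_one) (fun p hp => ?_)
      have h1 : (2 : ℝ) ≤ p := by exact_mod_cast (Nat.prime_of_mem_primeFactors hp).two_le
      have : (0 : ℝ) ≤ 1 / ((p : ℝ) - 1) := by
        apply div_nonneg zero_le_one
        linarith
      linarith

lemma psc_om (l : ℕ) (hl : l ≠ 0) : (2 : ℝ) ^ l.primeFactors.card ≤ l := by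
  have h1 : (2 : ℕ) ^ l.primeFactors.card ≤ l := by
    calc 2 ^ l.primeFactors.card = ∏ _p ∈ l.primeFactors, 2 := by rw [Finset.prod_const]
      _ ≤ ∏ p ∈ l.primeFactors, p :=
        Finset.prod_le_prod (fun _ _ => Nat.zero_le _)
          (fun p hp => (Nat.prime_of_mem_primeFactors hp).two_le)
      _ ≤ l := Nat.le_of_dvd (Nat.pos_of_ne_zero hl) (Nat.prod_primeFactors_dvd l)
  exact_mod_cast h1

lemma psc_sum (W z : ℕ) :
    (∑ l ∈ (Nat.divisors W).filter (fun l => l ≤ z), (2 : ℝ) ^ l.primeFactors.card) ≤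
      (z : ℝ) ^ 2 := by
  have h1 : ∀ l ∈ (Nat.divisors W).filter (fun l => l ≤ z), (2 : ℝ) ^ l.primeFactors.card ≤ z := by
    intro l hl
    rw [Finset.mem_filter, Nat.mem_divisors] at hl
    have h0 : l ≠ 0 := by
      rintro rfl
      exact hl.1.2 (Nat.eq_zero_of_zero_dvd hl.1.1)
    exact (psc_om l h0).trans (by exact_mod_cast hl.2)
  have h2 : ((Nat.divisors W).filter (fun l => l ≤ z)).card ≤ z := by
    calc ((Nat.divisors W).filter (fun l => l ≤ z)).card ≤ (Finset.Icc 1 z).card := by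
          refine Finset.card_le_card (fun l hl => ?_)
          rw [Finset.mem_filter, Nat.mem_divisors] at hl
          have h0 : l ≠ 0 := by
            rintro rfl
            exact hl.1.2 (Nat.eq_zero_of_zero_dvd hl.1.1)
          rw [Finset.mem_Icc]
          exact ⟨Nat.pos_of_ne_zero h0, hl.2⟩
      _ = z := by simp
  calc (∑ l ∈ (Nat.divisors W).filter (fun l => l ≤ z), (2 : ℝ) ^ l.primeFactors.card)
      ≤ ∑ _l ∈ (Nat.divisors W).filter (fun l => l ≤ z), (z : ℝ) := Finset.sum_le_sum h1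
    _ = ((Nat.divisors W).filter (fun l => l ≤ z)).card * (z : ℝ) := by
      rw [Finset.sum_const, nsmul_eq_mul]
    _ ≤ (z : ℝ) * z := by
      have : (((Nat.divisors W).filter (fun l => l ≤ z)).card : ℝ) ≤ z := by exact_mod_cast h2
      exact mul_le_mul_of_nonneg_right this (Nat.cast_nonneg z)
    _ = (z : ℝ) ^ 2 := by ring

lemma psc_count (B X c h : ℕ) (hB : 0 < B) :
    ((Finset.Icc 1 X).filter fun m => m ≡ c [MOD B] ∧ m.Prime ∧ (m + h).Prime).card ≤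
      1 + ((Finset.Icc 1 (X / B)).filter fun m => (c % B + B * m).Prime ∧
        (c % B + B * m + h).Prime).card := by
  classical
  have h1 : ((Finset.Icc 1 X).filter fun m => m ≡ c [MOD B] ∧ m.Prime ∧ (m + h).Prime) ⊆
      (insert 0 ((Finset.Icc 1 (X / B)).filter fun m => (c % B + B * m).Prime ∧
        (c % B + B * m + h).Prime)).image (fun m => c % B + B * m) := by
    intro m hm
    rw [Finset.mem_filter, Finset.mem_Icc] at hm
    obtain ⟨⟨hm1, hm2⟩, hm3, hm4, hm5⟩ := hm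
    have e : c % B + B * (m / B) = m := by
      have : m % B = c % B := hm3
      rw [← this]
      exact Nat.mod_add_div m B
    rw [Finset.mem_image]
    refine ⟨m / B, ?_, e⟩
    rw [Finset.mem_insert]
    rcases Nat.eq_zero_or_pos (m / B) with h0 | h0
    · exact Or.inl h0
    · right
      rw [Finset.mem_filter, Finset.mem_Icc, e]
      exact ⟨⟨h0, Nat.div_le_div_right hm2⟩, hm4, hm5⟩
  have hB' := hB
  calc _ ≤ _ := Finset.card_le_card h1
    _ ≤ _ := Finset.card_image_le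
    _ ≤ _ := Finset.card_insert_le _ _
    _ = _ := by ring

theorem pair_sieve : ∃ C : ℝ, 0 < C ∧ ∀ B : ℕ, 0 < B → 2 ∣ B → ∃ X0 : ℕ, 2 ≤ X0 ∧ ∀ X : ℕ, X0 ≤ X →
    ∀ c h : ℕ, 0 < h →
    (((Finset.Icc 1 X).filter fun m => m ≡ c [MOD B] ∧ m.Prime ∧ (m + h).Prime).card : ℝ)
      ≤ C * Cb B ^ 2 * ((X : ℝ) / B) / (Real.log X) ^ 2 * FF h := by
  refine ⟨801, by norm_num, fun B hB h2 => ⟨2 ^ 80 + (192 * B) ^ 2, ?_, ?_⟩⟩
  · have : 2 ≤ 2 ^ 80 := by norm_num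
    omega
  intro X hX c h hh
  have hBr : (0 : ℝ) < B := by exact_mod_cast hB
  have hXr : (2 : ℝ) ^ 80 + (192 * B) ^ 2 ≤ X := by exact_mod_cast hX
  have hX80 : (2 : ℝ) ^ 80 ≤ X := by nlinarith [sq_nonneg (192 * (B : ℝ))]
  have hXB : (192 * (B : ℝ)) ^ 2 ≤ X := by
    have : (0 : ℝ) ≤ 2 ^ 80 := by norm_num
    linarith
  have hX0 : (0 : ℝ) < X := lt_of_lt_of_le (by norm_num) hX80
  have hX1 : (1 : ℝ) ≤ X := le_trans (by norm_num) hX80
  have hlog80 : 80 * Real.log 2 ≤ Real.log X := by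
    have := Real.log_le_log (by norm_num) hX80
    rw [Real.log_pow] at this
    exact_mod_cast this
  have hl2 : 0 < Real.log 2 := Real.log_pos (by norm_num)
  have hlX : 0 < Real.log X := by linarith
  set r : ℝ := (X : ℝ) ^ (1 / 16 : ℝ) with hr
  have hr2 : (32 : ℝ) ≤ r := by
    have h1 : ((2 : ℝ) ^ 80) ^ (1 / 16 : ℝ) ≤ r :=
      Real.rpow_le_rpow (by norm_num) hX80 (by norm_num)
    have h2 : ((2 : ℝ) ^ 80) ^ (1 / 16 : ℝ) = 32 := by
      rw [← Real.rpow_natCast, ← Real.rpow_mul (by norm_num)]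
      norm_num
    linarith
  set z : ℕ := ⌊r⌋₊ with hz
  have hzr : (z : ℝ) ≤ r := Nat.floor_le (by linarith)
  have hzr2 : r / 2 ≤ z := by
    have := Nat.lt_floor_add_one r
    rw [← hz] at this
    linarith
  have hz1 : (1 : ℝ) ≤ z := by linarith
  have hz1' : 1 ≤ z := by exact_mod_cast hz1
  have hlogz : Real.log X / 20 ≤ Real.log z := by
    have h1 : Real.log (r / 2) ≤ Real.log z := Real.log_le_log (by linarith) hzr2
    rw [Real.log_div (by linarith) (by norm_num), hr, Real.log_rpow hX0] at h1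
    linarith
  have hlz : 0 < Real.log z := by linarith [div_pos hlX (by norm_num : (0 : ℝ) < 20)]
  have hFF := psc_FF h
  have hCb := psc_Cb B
  have hGG := pair_GG B h z hB h2 hh hz1'
  set G : ℝ := Op (PPb B z) (hp2 h) one1 z with hG
  have hCF : 0 < Cb B ^ 2 * FF h := by positivity
  have hCF1 : 1 ≤ Cb B ^ 2 * FF h := by
    have : 1 ≤ Cb B ^ 2 := one_le_pow₀ hCb
    nlinarith
  have hGpos : 0 < G := by
    have h1 : 0 < (Real.log z) ^ 2 / 2 := by positivity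
    have h3 : 0 < Cb B ^ 2 * FF h * G := lt_of_lt_of_le h1 hGG
    exact (pos_iff_pos_of_mul_pos h3).1 hCF
  have hGinv : G⁻¹ ≤ 800 * (Cb B ^ 2 * FF h) / (Real.log X) ^ 2 := by
    have h1 : (Real.log X) ^ 2 / 800 ≤ (Real.log z) ^ 2 / 2 := by
      have : (Real.log X / 20) ^ 2 ≤ (Real.log z) ^ 2 :=
        pow_le_pow_left₀ (by positivity) hlogz 2
      nlinarith
    have h3 : (Real.log X) ^ 2 / 800 ≤ Cb B ^ 2 * FF h * G := h1.trans hGG
    rw [inv_eq_one_div, div_le_div_iff₀ hGpos (by positivity)]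
    nlinarith
  have hsel := pair_selberg B (c % B) h (X / B) z hB h2 hh hz1'
  have hcount := psc_count B X c h hB
  have hcount' : (((Finset.Icc 1 X).filter fun m => m ≡ c [MOD B] ∧ m.Prime ∧
      (m + h).Prime).card : ℝ) ≤ 1 + (((Finset.Icc 1 (X / B)).filter fun m =>
        (c % B + B * m).Prime ∧ (c % B + B * m + h).Prime).card : ℝ) := by
    exact_mod_cast hcount
  have hN : (((X / B : ℕ)) : ℝ) ≤ (X : ℝ) / B := Nat.cast_div_le
  have hs2 : (∑ l ∈ (Nat.divisors (WWb B z)).filter (fun l => l ≤ z),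
      (2 : ℝ) ^ l.primeFactors.card) ^ 2 ≤ (z : ℝ) ^ 4 := by
    have h1 := psc_sum (WWb B z) z
    have h0 : 0 ≤ ∑ l ∈ (Nat.divisors (WWb B z)).filter (fun l => l ≤ z),
      (2 : ℝ) ^ l.primeFactors.card := Finset.sum_nonneg (fun _ _ => by positivity)
    calc _ ≤ ((z : ℝ) ^ 2) ^ 2 := pow_le_pow_left₀ h0 h1 2
      _ = (z : ℝ) ^ 4 := by ring
  have hNG : (((X / B : ℕ)) : ℝ) * G⁻¹ ≤
      (X : ℝ) / B * (800 * (Cb B ^ 2 * FF h) / (Real.log X) ^ 2) :=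
    mul_le_mul hN hGinv (inv_nonneg.2 hGpos.le) (by positivity)
  have hsmall : 1 + (z : ℝ) + (z : ℝ) ^ 4 ≤ (X : ℝ) / B / (Real.log X) ^ 2 := by
    have hr1 : (1 : ℝ) ≤ r := by linarith
    have e4 : r ^ 4 = (X : ℝ) ^ (1 / 4 : ℝ) := by
      rw [hr, ← Real.rpow_natCast, ← Real.rpow_mul hX0.le]
      norm_num
    have h1 : 1 + (z : ℝ) + (z : ℝ) ^ 4 ≤ 3 * (X : ℝ) ^ (1 / 4 : ℝ) := by
      have ha : (z : ℝ) ^ 4 ≤ r ^ 4 := pow_le_pow_left₀ (by linarith) hzr 4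
      have hb : r ≤ r ^ 4 := le_self_pow₀ hr1 (by norm_num)
      rw [← e4]
      linarith
    have h3 : Real.log X ≤ 8 * (X : ℝ) ^ (1 / 8 : ℝ) := by
      have := Real.log_le_rpow_div hX0.le (by norm_num : (0 : ℝ) < 1 / 8)
      linarith
    have h4 : (Real.log X) ^ 2 ≤ 64 * (X : ℝ) ^ (1 / 4 : ℝ) := by
      have e8 : ((X : ℝ) ^ (1 / 8 : ℝ)) ^ 2 = (X : ℝ) ^ (1 / 4 : ℝ) := by
        rw [← Real.rpow_natCast, ← Real.rpow_mul hX0.le]
        norm_num
      calc (Real.log X) ^ 2 ≤ (8 * (X : ℝ) ^ (1 / 8 : ℝ)) ^ 2 := pow_le_pow_left₀ hlX.le h3 2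
        _ = 64 * (X : ℝ) ^ (1 / 4 : ℝ) := by rw [mul_pow, e8]; norm_num
    have hs : (X : ℝ) ^ (1 / 4 : ℝ) * (X : ℝ) ^ (1 / 4 : ℝ) = Real.sqrt X := by
      rw [← Real.rpow_add hX0, Real.sqrt_eq_rpow]
      norm_num
    have hq : 192 * (B : ℝ) ≤ Real.sqrt X := Real.le_sqrt_of_sq_le hXB
    have hsq : Real.sqrt X * Real.sqrt X = X := Real.mul_self_sqrt hX0.le
    have hq0 : 0 ≤ Real.sqrt X := Real.sqrt_nonneg _
    rw [div_div, le_div_iff₀ (by positivity)]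
    have hX4 : 0 ≤ (X : ℝ) ^ (1 / 4 : ℝ) := by positivity
    calc (1 + (z : ℝ) + (z : ℝ) ^ 4) * (B * Real.log X ^ 2)
        ≤ (3 * (X : ℝ) ^ (1 / 4 : ℝ)) * (B * (64 * (X : ℝ) ^ (1 / 4 : ℝ))) := by
          refine mul_le_mul h1 ?_ (by positivity) (by positivity)
          exact mul_le_mul_of_nonneg_left h4 hBr.le
      _ = (192 * B) * ((X : ℝ) ^ (1 / 4 : ℝ) * (X : ℝ) ^ (1 / 4 : ℝ)) := by ring
      _ = (192 * B) * Real.sqrt X := by rw [hs]
      _ ≤ Real.sqrt X * Real.sqrt X := mul_le_mul_of_nonneg_right hq hq0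
      _ = X := hsq
  have hfin : (X : ℝ) / B / (Real.log X) ^ 2 ≤
      (X : ℝ) / B / (Real.log X) ^ 2 * (Cb B ^ 2 * FF h) :=
    le_mul_of_one_le_right (by positivity) hCF1
  calc _ ≤ _ := hcount'
    _ ≤ (1 + (z : ℝ) + (z : ℝ) ^ 4) +
        (X : ℝ) / B * (800 * (Cb B ^ 2 * FF h) / (Real.log X) ^ 2) := by
      linarith
    _ ≤ (X : ℝ) / B / (Real.log X) ^ 2 * (Cb B ^ 2 * FF h) +
        (X : ℝ) / B * (800 * (Cb B ^ 2 * FF h) / (Real.log X) ^ 2) := by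
      linarith
    _ = 801 * Cb B ^ 2 * ((X : ℝ) / B) / (Real.log X) ^ 2 * FF h := by ring

end Pool.H53.NA
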