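import Pool.Agent.H53.NU.Defs

/-!
Row PsA: Selberg's upper bound for prime pairs in a progression.

PROOF.  Copy `triple_selberg` of `Pool.Agent.H17.Upper` (read that file first; helper lemmas of `Pool.Agent.H17`:
`Selb.selberg_bound`, `card_crt`, `count_residues`, `PPb`, `WWb`, `squarefree_WWb`, `primeFactors_WWb`, `sum_divisors_WWb`).
Polynomial `f m = (c0 + B m)(c0 + B m + h)`, strictly increasing in `m` (`B > 0`, `h > 0`).  Sieving primes: `PPb B z` (primes
`≤ z` not dividing `B`; all are odd since `2 ∣ B`).  For `p ∤ B` the number of `t mod p` with `p ∣ f t` is `ν p = 1` if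
`p ∣ h` and `2` otherwise.  `nu = prodPrimeFactors (fun p => (if p ∣ h then 1 else 2)/p)`: it has to be `< 1` only for
the primes dividing `prodPrimes = WWb B z` (so `p ≥ 3`).  For `D ∣ WWb B z`: `|rem D| ≤ ∏ ν p ≤ 2^ω(D)`
(`count_residues` and `card_crt`); `2^ω(lcm d1 d2) ≤ 2^ω(d1) 2^ω(d2)`.  The Selberg weights are
`(ν/p)(1 - ν/p)⁻¹ = hp2 h p`.  Elements `m ∈ [1,N]` with both numbers prime: either `c0 + B m ≤ z` (then `m ≤ z`: at most `z` of them)
or `f m` is coprime to `WWb B z`.
-/

set_option autoImplicit false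

namespace Pool.H53.NA

open Pool.Agent.H17

/-- the polynomial of the pair sieve -/
def psa_f (B c0 h m : ℕ) : ℕ := (c0 + B * m) * (c0 + B * m + h)

theorem psa_f_strictMono (B c0 h : ℕ) (hB : 0 < B) (hh : 0 < h) : StrictMono (psa_f B c0 h) := by
  intro m n hmn
  unfold psa_f
  have h1 : B * m < B * n := Nat.mul_lt_mul_of_pos_left hmn hB
  have h2 : c0 + B * m < c0 + B * n := by omega
  have h3 : c0 + B * m + h ≤ c0 + B * n + h := by omega
  calc (c0 + B * m) * (c0 + B * m + h) ≤ (c0 + B * m) * (c0 + B * n + h) :=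
        Nat.mul_le_mul_left _ h3
    _ < (c0 + B * n) * (c0 + B * n + h) := Nat.mul_lt_mul_of_pos_right h2 (by omega)

theorem psa_prime_dvd_f {p : ℕ} (hp : p.Prime) (B c0 h m : ℕ) :
    p ∣ psa_f B c0 h m ↔ (p ∣ c0 + B * m ∨ p ∣ c0 + B * m + h) := by
  unfold psa_f
  exact hp.dvd_mul

/-- the number of residue classes removed by `p` -/
def psa_nu (h p : ℕ) : ℕ := if p ∣ h then 1 else 2

theorem psa_nu_pos (h p : ℕ) : 1 ≤ psa_nu h p := by
  unfold psa_nu
  split_ifs <;> norm_num

theorem psa_nu_le (h p : ℕ) : psa_nu h p ≤ 2 := by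
  unfold psa_nu
  split_ifs <;> norm_num

theorem psa_hit (B c0 h : ℕ) {p : ℕ} (hp : p.Prime) (hpB : ¬ p ∣ B) :
    ((Finset.range p).filter (fun t => p ∣ c0 + B * t ∨ p ∣ c0 + B * t + h)).card = psa_nu h p := by
  classical
  haveI : Fact p.Prime := ⟨hp⟩
  have hB0 : (B : ZMod p) ≠ 0 := by
    intro h0
    exact hpB ((ZMod.natCast_eq_zero_iff B p).1 h0)
  have key1 : ∀ t : ℕ, p ∣ c0 + B * t ↔ (t : ZMod p) = -(c0 : ZMod p) * (B : ZMod p)⁻¹ := by
    intro t
    rw [← ZMod.natCast_eq_zero_iff]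
    push_cast
    constructor
    · intro h1
      field_simp
      linear_combination h1
    · intro h1
      rw [h1]
      field_simp
      ring
  have key2 : ∀ t : ℕ, p ∣ c0 + B * t + h ↔
      (t : ZMod p) = -((c0 : ZMod p) + h) * (B : ZMod p)⁻¹ := by
    intro t
    rw [← ZMod.natCast_eq_zero_iff]
    push_cast
    constructor
    · intro h1
      field_simp
      linear_combination h1
    · intro h1
      rw [h1]
      field_simp
      ring
  have e1 : ((Finset.range p).filter (fun t => p ∣ c0 + B * t ∨ p ∣ c0 + B * t + h)).card =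
      ({-(c0 : ZMod p) * (B : ZMod p)⁻¹, -((c0 : ZMod p) + h) * (B : ZMod p)⁻¹} :
        Finset (ZMod p)).card := by
    refine Finset.card_nbij' (fun t => (t : ZMod p)) (fun x => x.val) ?_ ?_ ?_ ?_
    · intro t ht
      simp only [Finset.coe_filter, Set.mem_ofPred_eq] at ht
      rw [key1, key2] at ht
      simp only [Finset.coe_insert, Finset.coe_singleton, Set.mem_insert_iff,
        Set.mem_singleton_iff]
      exact ht.2
    · intro x hx
      simp only [Finset.coe_insert, Finset.coe_singleton, Set.mem_insert_iff,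
        Set.mem_singleton_iff] at hx
      simp only [Finset.coe_filter, Set.mem_ofPred_eq, Finset.mem_range]
      refine ⟨ZMod.val_lt x, ?_⟩
      rw [key1, key2, ZMod.natCast_zmod_val]
      exact hx
    · intro t ht
      simp only [Finset.coe_filter, Set.mem_ofPred_eq, Finset.mem_range] at ht
      exact ZMod.val_natCast_of_lt ht.1
    · intro x _
      exact ZMod.natCast_zmod_val x
  rw [e1]
  unfold psa_nu
  by_cases hph : p ∣ h
  · rw [if_pos hph]
    have h0 : (h : ZMod p) = 0 := (ZMod.natCast_eq_zero_iff h p).2 hph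
    rw [h0, add_zero]
    simp
  · rw [if_neg hph]
    apply Finset.card_pair
    intro h1
    apply hph
    rw [← ZMod.natCast_eq_zero_iff]
    have h2 := mul_right_cancel₀ (inv_ne_zero hB0) h1
    linear_combination h2

/-- the local densities as an arithmetic function -/
noncomputable def psa_nuf (h : ℕ) : ArithmeticFunction ℝ :=
  ArithmeticFunction.prodPrimeFactors (fun p => (psa_nu h p : ℝ) / p)

theorem psa_nuf_apply (h : ℕ) {n : ℕ} (hn : n ≠ 0) :
    psa_nuf h n = ∏ p ∈ n.primeFactors, (psa_nu h p : ℝ) / p := by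
  unfold psa_nuf
  rw [ArithmeticFunction.prodPrimeFactors_apply hn]

theorem psa_nuf_prime (h : ℕ) {p : ℕ} (hp : p.Prime) : psa_nuf h p = (psa_nu h p : ℝ) / p := by
  rw [psa_nuf_apply h hp.ne_zero, hp.primeFactors, Finset.prod_singleton]

theorem psa_count_dvd (B c0 h z : ℕ) {D : ℕ} (hD : D ∣ WWb B z) :
    ((Finset.range D).filter (fun t => D ∣ psa_f B c0 h t)).card
      = ∏ p ∈ D.primeFactors, psa_nu h p := by
  have hsq : Squarefree D := Squarefree.squarefree_of_dvd hD (squarefree_WWb B z)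
  have hB : ∀ p ∈ D.primeFactors, ¬ p ∣ B := by
    intro p hp
    have h1 : p ∈ (WWb B z).primeFactors :=
      Nat.primeFactors_mono hD (WWb_pos B z).ne' hp
    rw [primeFactors_WWb, mem_PPb] at h1
    exact h1.2.2
  have h1 : ∏ p ∈ D.primeFactors, p = D := Nat.prod_primeFactors_of_squarefree hsq
  have h2 := card_crt D.primeFactors (fun p hp => Nat.prime_of_mem_primeFactors hp)
    (fun p t => p ∣ c0 + B * t ∨ p ∣ c0 + B * t + h) (by
      intro p _ t
      have hm : c0 + B * t ≡ c0 + B * (t % p) [MOD p] :=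
        ((Nat.mod_modEq t p).symm.mul_left B).add_left c0
      have k1 : p ∣ c0 + B * t ↔ p ∣ c0 + B * (t % p) := hm.dvd_iff dvd_rfl
      have k2 : p ∣ c0 + B * t + h ↔ p ∣ c0 + B * (t % p) + h := (hm.add_right h).dvd_iff dvd_rfl
      rw [k1, k2])
  rw [h1] at h2
  have h3 : (Finset.range D).filter (fun t => D ∣ psa_f B c0 h t)
      = (Finset.range D).filter (fun t => ∀ p ∈ D.primeFactors,
        (p ∣ c0 + B * t ∨ p ∣ c0 + B * t + h)) := by
    apply Finset.filter_congr
    intro t _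
    constructor
    · intro h4 p hp
      rw [← psa_prime_dvd_f (Nat.prime_of_mem_primeFactors hp)]
      exact (Nat.dvd_of_mem_primeFactors hp).trans h4
    · intro h4
      rw [← h1]
      apply Finset.prod_primes_dvd
      · intro p hp
        exact (Nat.prime_of_mem_primeFactors hp).prime
      · intro p hp
        rw [psa_prime_dvd_f (Nat.prime_of_mem_primeFactors hp)]
        exact h4 p hp
  rw [h3, h2]
  apply Finset.prod_congr rfl
  intro p hp
  exact psa_hit B c0 h (Nat.prime_of_mem_primeFactors hp) (hB p hp)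

theorem psa_lt (B h z : ℕ) (h2 : 2 ∣ B) {p : ℕ} (hp : p.Prime) (hd : p ∣ WWb B z) :
    psa_nu h p < p := by
  have h1 : p ∈ (WWb B z).primeFactors :=
    Nat.mem_primeFactors.2 ⟨hp, hd, (WWb_pos B z).ne'⟩
  rw [primeFactors_WWb, mem_PPb] at h1
  have h3 : p ≠ 2 := by
    rintro rfl
    exact h1.2.2 h2
  have h4 := hp.two_le
  have h5 := psa_nu_le h p
  omega

/-- the sieve problem -/
noncomputable def psa_sv (B c0 h N z : ℕ) (h2 : 2 ∣ B) : BoundingSieve where
  support := (Finset.Icc 1 N).image (psa_f B c0 h)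
  prodPrimes := WWb B z
  prodPrimes_squarefree := squarefree_WWb B z
  weights := fun _ => 1
  weights_nonneg := fun _ => zero_le_one
  totalMass := N
  nu := psa_nuf h
  nu_mult := by
    unfold psa_nuf
    exact ArithmeticFunction.IsMultiplicative.prodPrimeFactors _
  nu_pos_of_prime := by
    intro p hp _
    rw [psa_nuf_prime h hp]
    have h1 : (1 : ℝ) ≤ psa_nu h p := by exact_mod_cast psa_nu_pos h p
    have h2 : (0 : ℝ) < p := by exact_mod_cast hp.pos
    positivity
  nu_lt_one_of_prime := by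
    intro p hp hd
    rw [psa_nuf_prime h hp]
    have h3 : (0 : ℝ) < p := by exact_mod_cast hp.pos
    rw [div_lt_one h3]
    exact_mod_cast psa_lt B h z h2 hp hd

open BoundingSieve in
theorem psa_multSum (B c0 h N z : ℕ) (hB : 0 < B) (h2 : 2 ∣ B) (hh : 0 < h) (D : ℕ) :
    (psa_sv B c0 h N z h2).multSum D =
      (((Finset.Icc 1 N).filter (fun m => D ∣ psa_f B c0 h m)).card : ℝ) := by
  unfold multSum
  show ∑ n ∈ (Finset.Icc 1 N).image (psa_f B c0 h), (if D ∣ n then (1 : ℝ) else 0) = _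
  rw [Finset.sum_image (fun m _ n _ hmn => (psa_f_strictMono B c0 h hB hh).injective hmn),
    Finset.card_filter]
  push_cast
  rfl

open BoundingSieve in
theorem psa_rem (B c0 h N z : ℕ) (hB : 0 < B) (h2 : 2 ∣ B) (hh : 0 < h) {D : ℕ}
    (hD : D ∣ WWb B z) :
    |(psa_sv B c0 h N z h2).rem D| ≤ 2 ^ D.primeFactors.card := by
  have hsq : Squarefree D := Squarefree.squarefree_of_dvd hD (squarefree_WWb B z)
  have hD0 : 0 < D := Nat.pos_of_ne_zero hsq.ne_zero
  have h1 := count_residues N D hD0 (fun m => D ∣ psa_f B c0 h m) (by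
    intro m
    unfold psa_f
    apply Nat.ModEq.dvd_iff _ dvd_rfl
    have hm : c0 + B * m ≡ c0 + B * (m % D) [MOD D] :=
      ((Nat.mod_modEq m D).symm.mul_left B).add_left c0
    exact hm.mul (hm.add_right h))
  rw [psa_count_dvd B c0 h z hD] at h1
  unfold rem
  rw [psa_multSum B c0 h N z hB h2 hh]
  have h3 : (psa_sv B c0 h N z h2).nu D * (psa_sv B c0 h N z h2).totalMass
      = ((∏ p ∈ D.primeFactors, psa_nu h p : ℕ) : ℝ) / D * N := by
    show psa_nuf h D * (N : ℝ) = _
    rw [psa_nuf_apply h hsq.ne_zero, Finset.prod_div_distrib]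
    have h4 : (∏ p ∈ D.primeFactors, (p : ℝ)) = D := by
      rw [← Nat.cast_prod, Nat.prod_primeFactors_of_squarefree hsq]
    rw [h4]
    push_cast
    ring
  rw [h3]
  refine h1.trans ?_
  push_cast
  calc ∏ p ∈ D.primeFactors, (psa_nu h p : ℝ) ≤ ∏ p ∈ D.primeFactors, (2 : ℝ) := by
        apply Finset.prod_le_prod
        · intro p _; positivity
        · intro p _; exact_mod_cast psa_nu_le h p
    _ = 2 ^ D.primeFactors.card := by rw [Finset.prod_const]

theorem psa_GG (B c0 h N z : ℕ) (h2 : 2 ∣ B) :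
    Selb.GG (psa_sv B c0 h N z h2) z = Op (PPb B z) (hp2 h) one1 z := by
  unfold Selb.GG Op
  show ∑ l ∈ (Nat.divisors (WWb B z)).filter (fun l => l ≤ z),
    (psa_sv B c0 h N z h2).selbergTerms l = _
  rw [sum_divisors_WWb]
  apply Finset.sum_congr rfl
  intro T hT
  rw [Finset.mem_powerset] at hT
  have hpr : ∀ p ∈ T, p.Prime := fun p hp => (mem_PPb.mp (hT hp)).2.1
  have hpos : 0 < ∏ p ∈ T, p := Finset.prod_pos (fun p hp => (hpr p hp).pos)
  have h1 : (psa_sv B c0 h N z h2).selbergTerms (∏ p ∈ T, p) = ∏ p ∈ T, hp2 h p := by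
    rw [BoundingSieve.selbergTerms_apply, Nat.primeFactors_prod hpr]
    show psa_nuf h (∏ p ∈ T, p) * ∏ p ∈ T, (1 - psa_nuf h p)⁻¹ = _
    rw [psa_nuf_apply h hpos.ne', Nat.primeFactors_prod hpr, ← Finset.prod_mul_distrib]
    apply Finset.prod_congr rfl
    intro p hp
    rw [psa_nuf_prime h (hpr p hp)]
    have hp3 : (3 : ℝ) ≤ p := by
      have e1 : p ≠ 2 := by
        rintro rfl
        exact (mem_PPb.mp (hT hp)).2.2 h2
      have e2 := (hpr p hp).two_le
      have e3 : 3 ≤ p := by omega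
      exact_mod_cast e3
    have hp0 : (p : ℝ) ≠ 0 := by linarith
    have hp1 : (p : ℝ) - 1 ≠ 0 := by linarith
    have hp2' : (p : ℝ) - 2 ≠ 0 := by linarith
    unfold psa_nu hp2
    by_cases hph : p ∣ h
    · rw [if_pos hph, if_pos hph]
      have e4 : (1 : ℝ) - ((1 : ℕ) : ℝ) / p = ((p : ℝ) - 1) / p := by
        push_cast
        field_simp
      rw [e4]
      push_cast
      field_simp
    · rw [if_neg hph, if_neg hph]
      have e4 : (1 : ℝ) - ((2 : ℕ) : ℝ) / p = ((p : ℝ) - 2) / p := by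
        push_cast
        field_simp
      rw [e4]
      push_cast
      field_simp
  rw [h1]
  unfold one1
  by_cases h3 : ∏ p ∈ T, p ≤ z
  · rw [if_pos h3, if_pos (show 1 ≤ z / ∏ p ∈ T, p from Nat.div_pos h3 hpos), mul_one]
  · rw [if_neg h3, if_neg (by rw [Nat.div_eq_of_lt (not_le.mp h3)]; omega), mul_zero]

open BoundingSieve in
theorem pair_selberg (B c0 h N z : ℕ) (hB : 0 < B) (h2 : 2 ∣ B) (hh : 0 < h) (hz : 1 ≤ z) :
    (((Finset.Icc 1 N).filter fun m => (c0 + B * m).Prime ∧ (c0 + B * m + h).Prime).card : ℝ)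
      ≤ z + N * (Op (PPb B z) (hp2 h) one1 z)⁻¹
        + (∑ l ∈ (Nat.divisors (WWb B z)).filter (fun l => l ≤ z), (2 : ℝ) ^ l.primeFactors.card) ^ 2 := by
  have h1 := Selb.selberg_bound (s := psa_sv B c0 h N z h2) (z := z) hz
  rw [psa_GG] at h1
  have h3 : ∑ d1 ∈ (Nat.divisors (psa_sv B c0 h N z h2).prodPrimes).filter (fun l => l ≤ z),
        ∑ d2 ∈ (Nat.divisors (psa_sv B c0 h N z h2).prodPrimes).filter (fun l => l ≤ z),
          |(psa_sv B c0 h N z h2).rem (d1.lcm d2)|
      ≤ (∑ l ∈ (Nat.divisors (WWb B z)).filter (fun l => l ≤ z), (2 : ℝ) ^ l.primeFactors.card) ^ 2 := by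
    rw [pow_two, Finset.sum_mul_sum]
    apply Finset.sum_le_sum
    intro d1 hd1
    apply Finset.sum_le_sum
    intro d2 hd2
    have hd1' : d1 ∣ WWb B z := (Nat.mem_divisors.mp (Finset.mem_filter.mp hd1).1).1
    have hd2' : d2 ∣ WWb B z := (Nat.mem_divisors.mp (Finset.mem_filter.mp hd2).1).1
    refine (psa_rem B c0 h N z hB h2 hh (Nat.lcm_dvd hd1' hd2')).trans ?_
    rw [← pow_add]
    apply pow_le_pow_right₀ (by norm_num)
    have e1 : d1 ≠ 0 := ne_zero_of_dvd_ne_zero (WWb_pos B z).ne' hd1'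
    have e2 : d2 ≠ 0 := ne_zero_of_dvd_ne_zero (WWb_pos B z).ne' hd2'
    refine le_trans (Finset.card_le_card ?_) (Finset.card_union_le _ _)
    intro p hp
    have hpp := Nat.prime_of_mem_primeFactors hp
    have hdvd := (Nat.dvd_of_mem_primeFactors hp).trans (Nat.lcm_dvd_mul d1 d2)
    rw [Finset.mem_union, Nat.mem_primeFactors, Nat.mem_primeFactors]
    rcases (hpp.dvd_mul).mp hdvd with hd | hd
    · left; exact ⟨hpp, hd, e1⟩
    · right; exact ⟨hpp, hd, e2⟩
  have h4 : (((Finset.Icc 1 N).filter (fun m => (c0 + B * m).Prime ∧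
      (c0 + B * m + h).Prime)).card : ℝ)
      ≤ z + (psa_sv B c0 h N z h2).siftedSum := by
    have e1 : (psa_sv B c0 h N z h2).siftedSum =
        (((Finset.Icc 1 N).filter (fun m => Nat.Coprime (WWb B z) (psa_f B c0 h m))).card : ℝ) := by
      unfold siftedSum
      show ∑ n ∈ (Finset.Icc 1 N).image (psa_f B c0 h),
        (if Nat.Coprime (WWb B z) n then (1 : ℝ) else 0) = _
      rw [Finset.sum_image (fun m _ n _ hmn => (psa_f_strictMono B c0 h hB hh).injective hmn),
        Finset.card_filter]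
      push_cast
      rfl
    rw [e1]
    have e2 : (Finset.Icc 1 N).filter (fun m => (c0 + B * m).Prime ∧ (c0 + B * m + h).Prime)
        ⊆ Finset.Icc 1 z ∪
          (Finset.Icc 1 N).filter (fun m => Nat.Coprime (WWb B z) (psa_f B c0 h m)) := by
      intro m hm
      rw [Finset.mem_filter, Finset.mem_Icc] at hm
      rw [Finset.mem_union, Finset.mem_Icc, Finset.mem_filter, Finset.mem_Icc]
      obtain ⟨hm1, hp1, hp2⟩ := hm
      by_cases hmz : c0 + B * m ≤ z
      · left
        have h5 : m ≤ B * m := Nat.le_mul_of_pos_left m hB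
        exact ⟨hm1.1, by omega⟩
      · right
        refine ⟨hm1, ?_⟩
        unfold WWb
        apply Nat.Coprime.prod_left
        intro p hp
        have hpp := (mem_PPb.mp hp).2.1
        have hpz := (mem_PPb.mp hp).1
        rw [Nat.Prime.coprime_iff_not_dvd hpp]
        intro hdvd
        rw [psa_prime_dvd_f hpp] at hdvd
        rcases hdvd with hd | hd
        · have := (Nat.prime_dvd_prime_iff_eq hpp hp1).mp hd
          omega
        · have := (Nat.prime_dvd_prime_iff_eq hpp hp2).mp hd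
          omega
    have e3 := (Finset.card_le_card e2).trans (Finset.card_union_le _ _)
    rw [Nat.card_Icc, Nat.add_sub_cancel] at e3
    exact_mod_cast e3
  have h5 : (psa_sv B c0 h N z h2).totalMass = N := rfl
  rw [h5] at h1
  linarith

end Pool.H53.NA
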