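import Pool.Agent.H53.NU.Defs
import Pool.Agent.H75.EK.Mert

/-!
Row RsA: Romanoff's sum, moduli with small order.

PROOF.  Let `Q` be the set of prime factors of `∏_{1 ≤ i ≤ x} (2^i - 1)`; all are odd.  If `d ∈ T` and `q ∣ d` is a prime, then
`t = orderOf (2 : ZMod q)` divides `orderOf (2 : ZMod d) ≤ x` (apply `ZMod.castHom`), and `q ∣ 2^t - 1`, `t ≥ 1`, so `q ∈ Q`.
As `d` is squarefree, `∑_{d ∈ T} g4 d ≤ ∑_{A ⊆ Q} ∏_{q ∈ A} 4/q = ∏_{q ∈ Q} (1 + 4/q) ≤ exp(4 ∑_{q ∈ Q} 1/q)` (`d ↦ d.primeFactors`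
is injective on squarefree numbers; `g4 d = ∏_{q ∣ d} 4/q`; `Finset.prod_one_add`).
`2^|Q| ≤ ∏_{q ∈ Q} q ≤ ∏_{i ≤ x} 2^i ≤ 2^(x²)`, so `|Q| ≤ x²`.
`∑_{q ∈ Q} 1/q ≤ ∑_{q ≤ x²} 1/q + |Q|/x² ≤ log log (x²) + C0 + 1` by `mert5` of `Pool.Agent.H75.EK.Mert` (namespace `EK75`; `x² ≥ 4`).
So the sum is `≤ e^(4 C0 + 4) (log x²)⁴ = 16 e^(4 C0 + 4) (log x)⁴`.
-/

set_option autoImplicit false

namespace Pool.H53.NA

private theorem rsa_g4 {d : ℕ} (hd : Squarefree d) :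
    g4 d = ∏ q ∈ d.primeFactors, (4 / (q : ℝ)) := by
  unfold g4
  rw [Finset.prod_div_distrib, Finset.prod_const]
  congr 1
  have h := Nat.prod_primeFactors_of_squarefree hd
  calc (d : ℝ) = ((∏ p ∈ d.primeFactors, p : ℕ) : ℝ) := by rw [h]
    _ = ∏ q ∈ d.primeFactors, (q : ℝ) := by push_cast; rfl

private theorem rsa_mem {x d q : ℕ} (hd : Squarefree d) (ho : Odd d)
    (hx : orderOf (2 : ZMod d) ≤ x) (hq : q ∈ d.primeFactors) :
    q ∈ (∏ i ∈ Finset.Icc 1 x, (2 ^ i - 1)).primeFactors := by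
  have hd0 : d ≠ 0 := hd.ne_zero
  have : NeZero d := ⟨hd0⟩
  have hqp := Nat.prime_of_mem_primeFactors hq
  have hqd := Nat.dvd_of_mem_primeFactors hq
  have hc : Nat.Coprime 2 d := (Nat.coprime_two_left).mpr ho
  set u : (ZMod d)ˣ := ZMod.unitOfCoprime 2 hc with hu
  have hu2 : ((u : (ZMod d)ˣ) : ZMod d) = 2 := by
    rw [hu, ZMod.coe_unitOfCoprime]; norm_num
  have hpos : 0 < orderOf (2 : ZMod d) := by
    rw [← hu2, orderOf_units]
    exact orderOf_pos u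
  have h1 : d ∣ 2 ^ orderOf (2 : ZMod d) - 1 := by
    have h2 : ((2 ^ orderOf (2 : ZMod d) - 1 : ℕ) : ZMod d) = 0 := by
      rw [Nat.cast_sub Nat.one_le_two_pow]
      push_cast
      rw [pow_orderOf_eq_one, sub_self]
    exact (ZMod.natCast_eq_zero_iff _ _).mp h2
  refine Nat.mem_primeFactors.mpr ⟨hqp, ?_, ?_⟩
  · refine (hqd.trans h1).trans ?_
    exact Finset.dvd_prod_of_mem (fun i => 2 ^ i - 1) (Finset.mem_Icc.mpr ⟨hpos, hx⟩)
  · refine Finset.prod_ne_zero_iff.mpr fun i hi => ?_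
    have h1 := (Finset.mem_Icc.mp hi).1
    have h2 : 2 ^ 1 ≤ 2 ^ i := Nat.pow_le_pow_right (by norm_num) h1
    omega

private theorem rsa_card {x : ℕ} :
    (∏ i ∈ Finset.Icc 1 x, (2 ^ i - 1)).primeFactors.card ≤ x ^ 2 := by
  set N := ∏ i ∈ Finset.Icc 1 x, (2 ^ i - 1) with hN
  have hN0 : N ≠ 0 := by
    refine Finset.prod_ne_zero_iff.mpr fun i hi => ?_
    have h1 := (Finset.mem_Icc.mp hi).1
    have h2 : 2 ^ 1 ≤ 2 ^ i := Nat.pow_le_pow_right (by norm_num) h1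
    omega
  have h1 : 2 ^ N.primeFactors.card ≤ ∏ q ∈ N.primeFactors, q := by
    rw [← Finset.prod_const]
    exact Finset.prod_le_prod' fun q hq => (Nat.prime_of_mem_primeFactors hq).two_le
  have h2 : ∏ q ∈ N.primeFactors, q ≤ N :=
    Nat.le_of_dvd (Nat.pos_of_ne_zero hN0) (Nat.prod_primeFactors_dvd N)
  have h3 : N ≤ 2 ^ (x ^ 2) := by
    calc N ≤ ∏ i ∈ Finset.Icc 1 x, 2 ^ x := by
          refine Finset.prod_le_prod' fun i hi => ?_
          exact (Nat.sub_le _ _).trans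
            (Nat.pow_le_pow_right (by norm_num) (Finset.mem_Icc.mp hi).2)
      _ = 2 ^ (x ^ 2) := by
          rw [Finset.prod_const, Nat.card_Icc, Nat.add_sub_cancel, ← pow_mul, sq]
  exact (Nat.pow_le_pow_iff_right (by norm_num : 1 < 2)).mp (h1.trans (h2.trans h3))

theorem rom_small : ∃ C : ℝ, 0 < C ∧ ∀ x : ℕ, 2 ≤ x → ∀ T : Finset ℕ,
    (∀ d ∈ T, Squarefree d ∧ Odd d ∧ orderOf (2 : ZMod d) ≤ x) →
    ∑ d ∈ T, g4 d ≤ C * (Real.log x) ^ 4 := by
  obtain ⟨C0, hC0⟩ := EK75.mert5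
  refine ⟨16 * Real.exp (4 * C0 + 4), by positivity, fun x hx T hT => ?_⟩
  set Q := (∏ i ∈ Finset.Icc 1 x, (2 ^ i - 1)).primeFactors with hQ
  have hQp : ∀ q ∈ Q, q.Prime := fun q hq => Nat.prime_of_mem_primeFactors hq
  -- the sum over subsets
  have h1 : ∑ d ∈ T, g4 d ≤ ∏ q ∈ Q, (1 + 4 / (q : ℝ)) := by
    rw [Finset.prod_one_add]
    have hinj : Set.InjOn (fun d : ℕ => d.primeFactors) (T : Set ℕ) := by
      intro a ha b hb hab
      have h1 := Nat.prod_primeFactors_of_squarefree (hT a ha).1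
      have h2 := Nat.prod_primeFactors_of_squarefree (hT b hb).1
      simp only at hab
      rw [hab] at h1
      exact h1.symm.trans h2
    have h2 : ∑ d ∈ T, g4 d = ∑ A ∈ T.image (fun d : ℕ => d.primeFactors),
        ∏ q ∈ A, (4 / (q : ℝ)) := by
      rw [Finset.sum_image hinj]
      exact Finset.sum_congr rfl fun d hd => rsa_g4 (hT d hd).1
    rw [h2]
    refine Finset.sum_le_sum_of_subset_of_nonneg ?_ fun A _ _ =>
      Finset.prod_nonneg fun q _ => by positivity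
    intro A hA
    obtain ⟨d, hd, rfl⟩ := Finset.mem_image.mp hA
    refine Finset.mem_powerset.mpr fun q hq => ?_
    exact rsa_mem (hT d hd).1 (hT d hd).2.1 (hT d hd).2.2 hq
  have h2 : ∏ q ∈ Q, (1 + 4 / (q : ℝ)) ≤ Real.exp (4 * ∑ q ∈ Q, 1 / (q : ℝ)) := by
    rw [Finset.mul_sum, Real.exp_sum]
    refine Finset.prod_le_prod (fun q _ => by positivity) fun q _ => ?_
    have := Real.add_one_le_exp (4 * (1 / (q : ℝ)))
    calc (1 : ℝ) + 4 / q = 4 * (1 / (q : ℝ)) + 1 := by ring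
      _ ≤ _ := this
  -- the sum of the reciprocals
  have hx2 : (2 : ℝ) ≤ (x : ℝ) ^ 2 := by
    have : (2 : ℝ) ≤ x := by exact_mod_cast hx
    nlinarith
  have hxpos : (0 : ℝ) < (x : ℝ) ^ 2 := by linarith
  have h3 : ∑ q ∈ Q, 1 / (q : ℝ) ≤ Real.log (Real.log ((x : ℝ) ^ 2)) + C0 + 1 := by
    rw [← Finset.sum_filter_add_sum_filter_not Q (fun q => q ≤ x ^ 2)]
    have h4 : ∑ q ∈ Q.filter (fun q => q ≤ x ^ 2), 1 / (q : ℝ) ≤
        ∑ p ∈ EK75.prLe ((x : ℝ) ^ 2), (1 : ℝ) / p := by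
      refine Finset.sum_le_sum_of_subset_of_nonneg ?_ fun q _ _ => by positivity
      intro q hq
      obtain ⟨hq1, hq2⟩ := Finset.mem_filter.mp hq
      unfold EK75.prLe
      have hfl : ⌊((x : ℝ) ^ 2)⌋₊ = x ^ 2 := by
        rw [show ((x : ℝ) ^ 2) = ((x ^ 2 : ℕ) : ℝ) by push_cast; rfl, Nat.floor_natCast]
      rw [hfl]
      simp only [Finset.mem_filter, Finset.mem_range]
      exact ⟨by omega, hQp q hq1⟩
    have h5 : ∑ q ∈ Q.filter (fun q => ¬ q ≤ x ^ 2), 1 / (q : ℝ) ≤ 1 := by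
      calc ∑ q ∈ Q.filter (fun q => ¬ q ≤ x ^ 2), 1 / (q : ℝ)
          ≤ ∑ q ∈ Q.filter (fun q => ¬ q ≤ x ^ 2), 1 / (x : ℝ) ^ 2 := by
            refine Finset.sum_le_sum fun q hq => ?_
            have h6 := (Finset.mem_filter.mp hq).2
            have h7 : (x : ℝ) ^ 2 ≤ q := by
              have : x ^ 2 ≤ q := by omega
              exact_mod_cast this
            exact one_div_le_one_div_of_le hxpos h7
        _ = ((Q.filter (fun q => ¬ q ≤ x ^ 2)).card : ℝ) * (1 / (x : ℝ) ^ 2) := by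
            rw [Finset.sum_const, nsmul_eq_mul]
        _ ≤ (x : ℝ) ^ 2 * (1 / (x : ℝ) ^ 2) := by
            refine mul_le_mul_of_nonneg_right ?_ (by positivity)
            have h8 : (Q.filter (fun q => ¬ q ≤ x ^ 2)).card ≤ x ^ 2 :=
              (Finset.card_filter_le _ _).trans rsa_card
            exact_mod_cast h8
        _ = 1 := by field_simp
    have h6 := (abs_le.mp (hC0 ((x : ℝ) ^ 2) hx2)).2
    linarith
  have hlx : 0 < Real.log (x : ℝ) := Real.log_pos (by exact_mod_cast (by omega : 1 < x))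
  have hl2 : Real.log ((x : ℝ) ^ 2) = 2 * Real.log x := by
    rw [Real.log_pow]; norm_num
  calc ∑ d ∈ T, g4 d ≤ Real.exp (4 * ∑ q ∈ Q, 1 / (q : ℝ)) := h1.trans h2
    _ ≤ Real.exp (4 * (Real.log (Real.log ((x : ℝ) ^ 2)) + C0 + 1)) :=
        Real.exp_le_exp.mpr (by linarith)
    _ = Real.exp (Real.log (Real.log ((x : ℝ) ^ 2))) ^ 4 * Real.exp (4 * C0 + 4) := by
        rw [← Real.exp_nat_mul, ← Real.exp_add]
        congr 1
        push_cast
        ring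
    _ = 16 * Real.exp (4 * C0 + 4) * Real.log x ^ 4 := by
        rw [hl2, Real.exp_log (by positivity)]
        ring

end Pool.H53.NA
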