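import Pool.Agent.H53.NU.RsA

/-!
Row RsB: Romanoff's sum.

PROOF.  `t_d = orderOf (2 : ZMod d) ≥ 1` for odd `d` (`2` is a unit of the finite ring `ZMod d`).  Sort `T` by `k` with
`2^k ≤ t_d < 2^(k+1)` (`k = Nat.log 2 t_d`).  By `rom_small` (with `x = 2^(k+1) ≥ 2`)
`∑_{d ∈ T_k} g4 d/√t_d ≤ 2^(-k/2) C (log 2^(k+1))⁴ ≤ C (k+1)⁴ (1/√2)^k`.  The series `∑_k (k+1)⁴ (1/√2)^k` converges
(`summable_pow_mul_geometric_of_norm_lt_one`, shifted), so the total is bounded by a constant independent of `T`.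
-/

set_option autoImplicit false

namespace Pool.H53.NA

theorem rsb_ord {d : ℕ} (hd : Odd d) : 1 ≤ orderOf (2 : ZMod d) := by
  have hc : Nat.Coprime 2 d := (Nat.coprime_two_left).mpr hd
  have hd0 : d ≠ 0 := by rintro rfl; simp at hd
  haveI : NeZero d := ⟨hd0⟩
  have h1 : ((ZMod.unitOfCoprime 2 hc : (ZMod d)ˣ) : ZMod d) = 2 := by
    rw [ZMod.coe_unitOfCoprime]; norm_num
  rw [← h1, orderOf_units]
  exact orderOf_pos _

theorem rsb_summable : Summable (fun k : ℕ => ((k : ℝ) + 1) ^ 4 * (1 / Real.sqrt 2) ^ k) := by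
  have h2 : 1 < Real.sqrt 2 := by
    rw [Real.lt_sqrt (by norm_num)]; norm_num
  have hr : ‖(1 / Real.sqrt 2 : ℝ)‖ < 1 := by
    rw [Real.norm_of_nonneg (by positivity), div_lt_one (by linarith)]
    exact h2
  have h := summable_pow_mul_geometric_of_norm_lt_one 4 hr
  have h1 := (summable_nat_add_iff 1).2 h
  have h3 := h1.mul_left (Real.sqrt 2)
  refine h3.congr fun k => ?_
  have h0 : Real.sqrt 2 ≠ 0 := by linarith
  push_cast
  rw [pow_succ (1 / Real.sqrt 2)]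
  field_simp

theorem rom_sum : ∃ C : ℝ, 0 < C ∧ ∀ T : Finset ℕ, (∀ d ∈ T, Squarefree d ∧ Odd d) →
    ∑ d ∈ T, g4 d / Real.sqrt (orderOf (2 : ZMod d)) ≤ C := by
  classical
  obtain ⟨C, hC, hrom⟩ := rom_small
  set a : ℕ → ℝ := fun k => C * (((k : ℝ) + 1) ^ 4 * (1 / Real.sqrt 2) ^ k) with ha
  have hsum : Summable a := rsb_summable.mul_left C
  have ha0 : ∀ k, 0 ≤ a k := fun k => by simp only [ha]; positivity
  refine ⟨∑' k, a k + 1, by have h00 : 0 ≤ ∑' k, a k := tsum_nonneg ha0; linarith, ?_⟩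
  intro T hT
  set κ : ℕ → ℕ := fun d => Nat.log 2 (orderOf (2 : ZMod d)) with hκ
  have h1 : ∑ d ∈ T, g4 d / Real.sqrt (orderOf (2 : ZMod d)) =
      ∑ k ∈ T.image κ, ∑ d ∈ T with κ d = k, g4 d / Real.sqrt (orderOf (2 : ZMod d)) :=
    (Finset.sum_fiberwise_of_maps_to (fun d hd => Finset.mem_image_of_mem κ hd) _).symm
  have h2 : ∀ k ∈ T.image κ, ∑ d ∈ T with κ d = k, g4 d / Real.sqrt (orderOf (2 : ZMod d)) ≤ a k := by
    intro k _
    have hs2 : 0 < Real.sqrt 2 := by positivity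
    have h3 : ∀ d ∈ T.filter (fun d => κ d = k), g4 d / Real.sqrt (orderOf (2 : ZMod d)) ≤
        g4 d * (1 / Real.sqrt 2) ^ k := by
      intro d hd
      obtain ⟨hdT, hdk⟩ := Finset.mem_filter.mp hd
      have hord := rsb_ord (hT d hdT).2
      have h4 : 2 ^ k ≤ orderOf (2 : ZMod d) := by
        rw [← hdk]
        exact Nat.pow_log_le_self 2 (by omega)
      have h5 : Real.sqrt 2 ^ k ≤ Real.sqrt (orderOf (2 : ZMod d)) := by
        apply Real.le_sqrt_of_sq_le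
        rw [← pow_mul, mul_comm, pow_mul, Real.sq_sqrt (by norm_num)]
        exact_mod_cast h4
      have hg : 0 ≤ g4 d := by
        unfold g4
        positivity
      rw [div_eq_mul_inv]
      apply mul_le_mul_of_nonneg_left _ hg
      rw [one_div, inv_pow]
      exact inv_anti₀ (by positivity) h5
    refine (Finset.sum_le_sum h3).trans ?_
    rw [← Finset.sum_mul]
    have h6 := hrom (2 ^ (k + 1)) (by
      calc 2 = 2 ^ 1 := by norm_num
        _ ≤ 2 ^ (k + 1) := Nat.pow_le_pow_right (by norm_num) (by omega)) (T.filter (fun d => κ d = k))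
      (by
        intro d hd
        obtain ⟨hdT, hdk⟩ := Finset.mem_filter.mp hd
        refine ⟨(hT d hdT).1, (hT d hdT).2, ?_⟩
        have : orderOf (2 : ZMod d) < 2 ^ (Nat.log 2 (orderOf (2 : ZMod d))).succ :=
          Nat.lt_pow_succ_log_self (by norm_num) _
        rw [← hdk]
        exact this.le)
    have h7 : Real.log ((2 ^ (k + 1) : ℕ) : ℝ) ≤ (k : ℝ) + 1 := by
      push_cast
      rw [Real.log_pow]
      push_cast
      have := Real.log_two_lt_d9
      nlinarith [(Nat.cast_nonneg k : (0 : ℝ) ≤ k)]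
    have h8 : 0 ≤ Real.log ((2 ^ (k + 1) : ℕ) : ℝ) := Real.log_natCast_nonneg _
    have h9 : Real.log ((2 ^ (k + 1) : ℕ) : ℝ) ^ 4 ≤ ((k : ℝ) + 1) ^ 4 := pow_le_pow_left₀ h8 h7 4
    calc (∑ d ∈ T with κ d = k, g4 d) * (1 / Real.sqrt 2) ^ k
        ≤ (C * ((k : ℝ) + 1) ^ 4) * (1 / Real.sqrt 2) ^ k := by
          apply mul_le_mul_of_nonneg_right _ (by positivity)
          exact h6.trans (mul_le_mul_of_nonneg_left h9 hC.le)
      _ = a k := by simp only [ha]; ring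
  rw [h1]
  calc _ ≤ ∑ k ∈ T.image κ, a k := Finset.sum_le_sum h2
    _ ≤ ∑' k, a k := hsum.sum_le_tsum _ (fun k _ => ha0 k)
    _ ≤ ∑' k, a k + 1 := by linarith

end Pool.H53.NA
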